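import Mathlib.Data.Nat.Basic

/-!
# Enumeration of caps in `F_3^3` : kernel functions
-/

set_option autoImplicit false

namespace Pool.Agent.H29.EGZ

/-- evaluate a natural number before passing it on -/
@[reducible] noncomputable def force {α : Type} (x : Nat) (F : Nat → α) : α :=
  Nat.rec (motive := fun _ => α) (F 0) (fun k _ => F (Nat.succ k)) x

/-- table of the bits `2^(-(x+n))` -/
def PT : Nat := 0x40000002000000800000008000000400000100000200000010000004000000000200000010000004000000040000002000000800001000000080000020008000000400000100000001000000080000020000040000002000000800080000020000008000000010000004000001000000400000100000040000000000400000100000040000000080000020000008000002000000800000200010000004000001000000002000000800000200000080000020000008000800000200000010000000100000040000002000004000001000000080000000004000001000000080000000800000200000010000020000008000000400100000040000002000000020000008000000400000800000200000010000200000010000004000008000000400000100000200000010000004000000000001000000080000020000040000002000000800001000000080000020000040000002000000800001000000080000020000040000002000000800000400000100000040000010000004000001000000400000100000040000000000002000000800000200000080000020000008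00000200000080000020000008000002000000800000200000080000020000008000002000000800000400000100000008000010000004000000200000400000100000008000000000002000000800000040000080000020000001000002000000800000040000080000020000001000002000000800000040000080000020000001000020000001000000400000800000040000010000000100000008000002000000000100000008000002000004000000200000080000000800000040000010004000000200000080000100000008000002000000020000001000000400040000010000004000001000000400000100000000200000080000020000000000200000080000020000008000002000000800000001000000400000100008000002000000800000200000080000020000000040000010000004000400000100000008000010000004000000200000002000000800000040000000002000000800000040000080000020000001000000010000004000000200080000020000001000002000000800000040000000400000100000008000000800000040000010000000100000008000002000004000000200000080020000001000000400000004000000200000080000100000008000002000800000040000010000000100000008000002000004000000200000080000000001000000400000100000000200000080000020000008000002000000800040000010000004000000008000002000000800000200000080000020001000000400000100000000200000080000020000008000002000000800000000010000004000000200000002000000800000040000080000020000001000400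00010000000800000008000002000000100000200000080000004001000000400000020000000200000080000004000008000002000000100000000000400000020000008000010000000800000200000400000020000008000010000000800000200000400000020000008000010000000800000200000400000020000008000010000000800000200000400000020000008000000000000800000200000080000020000008000002000000800000200000080000020000008000002000000800000200000080000020000008000002000000800000200000080000020000008000002000000800000200000080000000000008000002000000100000200000080000004000008000002000000100000200000080000004000008000002000000100000200000080000004000008000002000000100000200000080000004000008000002000000100000000000400000020000008000010000000800000200000002000000100000040010000000800000200000400000020000008000000080000004000001000400000020000008000010000000800000200000002000000100000040000000000800000200000080000020000008000002000000004000001000000400020000008000002000000800000200000080000000100000040000010000800000200000080000020000008000002000000004000001000000400000000008000002000000100000200000080000004000000040000010000000800200000080000004000008000002000000100000001000000400000020008000002000000100000200000080000004000000040000010000000800000080000004000001000000010000000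8000002000004000000200000080020000001000000400000004000000200000080000100000008000002000000000100000008000002000000020000001000000400000800000040000010001000000400000100000000200000080000020000008000002000000800040000010000004000000008000002000000800000200000080000020000000000200000080000020000000040000010000004000001000000400000100010000004000000200000002000000800000040000080000020000001000400000100000008000000080000020000001000002000000800000040000000002000000800000040000000400000100000008000010000004000000200004000000200000080000100000008000002000004000000200000080000100000008000002000004000000200000080000100000008000002000000000000800000040000010000020000001000000400000800000040000010000008000002000000800000200000080000020000008000002000000800000200000080000020000008000002000000800000200000080000020000000000001000000400000100000040000010000004000001000000400000100000080000020000001000002000000800000040000080000020000001000002000000800000040000080000020000001000002000000800000040000000000010000004000000200000400000100000008000010000004000000200004000000200000080000100000008000002000000020000001000000400100000008000002000004000000200000080000000800000040000010000000000800000040000010000020000001000000400000004000000200000080008000002000000800000200000080000020000000040000010000004000200000080000020000008000002000000800000001000000400000100000000001000000400000100000040000010000004000000008000002000000800080000020000001000002000000800000040000000400000100000008002000000800000040000080000020000001000000010000004000000200000000010000004000000200000400000100000008000000080000020000001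

/-- entry `n` of a table with rows of 81 bits, 27 bits used -/
def look (t n : Nat) : Nat := Nat.land (Nat.shiftRight t (Nat.mul 81 n)) 134217727

/-- entry `n` of a table with rows of 81 bits -/
def lookT (t n : Nat) : Nat :=
  Nat.land (Nat.shiftRight t (Nat.mul 81 n)) 2417851639229258349412351

/-- the bit of `-(x+n)` -/
def bit3 (x n : Nat) : Nat :=
  Nat.land (Nat.shiftRight PT (Nat.mul 27 (Nat.add (Nat.mul 27 n) x))) 134217727

/-- mask of `-(X+n)` -/
noncomputable def row (X : List Nat) (n : Nat) : Nat :=
  List.rec (motive := fun _ => Nat) 0 (fun x _ ih => Nat.lor ih (bit3 x n)) X

/-- the complement of `y` within `x` -/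
def diff (x y : Nat) : Nat := Nat.xor x (Nat.land x y)

/-- clear the lowest bit -/
def clb (x : Nat) : Nat := Nat.land x (Nat.sub x 1)

/-- at least two bits -/
def ge2 (x : Nat) : Bool := Nat.ble 1 (clb x)

/-- at least five bits -/
def ge5 (x : Nat) : Bool := Nat.ble 1 (clb (clb (clb (clb x))))

/-- enumeration of the caps: `k` = number of points to be chosen, `c` = chosen points, `A` = allowed
points (27 bits) and two masks which shrink by the table `T` and are guarded by `g` -/
noncomputable def enum (T : Nat) (g : Nat → Bool) (leaf : List Nat → Bool) (fuel : Nat) :
    Nat → List Nat → Nat → Bool :=
  Nat.rec (motive := fun _ => Nat → List Nat → Nat → Bool)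
    (fun k c _ => Nat.rec (motive := fun _ => Bool) (leaf c) (fun _ _ => false) k)
    (fun _ ih k c A => Nat.rec (motive := fun _ => Bool) (leaf c)
      (fun k' _ => force (Nat.land A 134217727) fun a => Bool.rec
        (force (Nat.log2 a) fun v => force (Nat.xor A (Nat.shiftLeft 1 v)) fun A1 =>
          Bool.rec false
          (force (diff A1 (Nat.lor (row c v) (lookT T v))) fun A' =>
              Bool.rec true (ih k' (v :: c) A') (g A'))
          (ih (Nat.succ k') c A1))
        true
        (Nat.beq a 0)) k) fuel

/-- table of the rows -/
noncomputable def tab (X : List Nat) (n : Nat) : Nat :=
  Nat.rec (motive := fun _ => Nat) 0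
    (fun n ih => Nat.lor ih (Nat.shiftLeft (row X n) (Nat.mul 81 n))) n

/-- membership -/
noncomputable def memb (x : Nat) (L : List Nat) : Bool :=
  List.rec (motive := fun _ => Bool) false (fun y _ ih => Bool.rec ih true (Nat.beq x y)) L

/-- conjunction over a list -/
noncomputable def allL {α : Type} (P : α → Bool) (L : List α) : Bool :=
  List.rec (motive := fun _ => Bool) true (fun y _ ih => Bool.rec false ih (P y)) L

/-- disjunction over a list -/
noncomputable def anyL {α : Type} (P : α → Bool) (L : List α) : Bool :=
  List.rec (motive := fun _ => Bool) false (fun y _ ih => Bool.rec ih true (P y)) L

/-- union of the entries of a table -/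
noncomputable def orlook (t : Nat) (X : List Nat) : Nat :=
  List.rec (motive := fun _ => Nat) 0 (fun x _ ih => Nat.lor ih (look t x)) X

/-- mask of `-(X+Y)` -/
noncomputable def rows (X Y : List Nat) : Nat :=
  List.rec (motive := fun _ => Nat) 0 (fun y _ ih => Nat.lor ih (row X y)) Y

/-- mask of a list -/
noncomputable def maskOf (X : List Nat) : Nat :=
  List.rec (motive := fun _ => Nat) 0 (fun x _ ih => Nat.lor ih (Nat.shiftLeft 1 x)) X

/-- difference of codes in `F_3^3` -/
def sub3 (x y : Nat) : Nat :=
  (x % 3 + 3 - y % 3) % 3 + 3 * ((x / 3 % 3 + 3 - y / 3 % 3) % 3) +
    9 * ((x / 9 % 3 + 3 - y / 9 % 3) % 3)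

/-- mask of the translate `X - p` -/
noncomputable def maskSub (X : List Nat) (p : Nat) : Nat :=
  List.rec (motive := fun _ => Nat) 0 (fun x _ ih => Nat.lor ih (Nat.shiftLeft 1 (sub3 x p))) X

/-- leaf test of the partner enumeration: some translate is in the list -/
noncomputable def leafT1 (LM : List Nat) (l : List Nat) : Bool :=
  anyL (fun p => force (maskSub l p) fun m => memb m LM) l

/-- guard: one mask with two bits -/
def g2 (A : Nat) : Bool := ge2 (Nat.shiftRight A 27)

/-- guard: one mask with five bits -/
def g5 (A : Nat) : Bool := ge5 (Nat.shiftRight A 27)

/-- guard: two masks with five bits -/
noncomputable def g55 (A : Nat) : Bool :=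
  Bool.rec false (ge5 (Nat.shiftRight A 54)) (ge5 (Nat.land (Nat.shiftRight A 27) 134217727))

/-- no guard -/
def g0 (_ : Nat) : Bool := true

/-- partner enumeration -/
noncomputable def chkT1 (t : Nat) (LM : List Nat) : Bool :=
  force (Nat.shiftLeft t 27) fun T =>
    enum T g2 (leafT1 LM) 30 7 [0]
      (Nat.lor 134217726 (Nat.shiftLeft (diff 134217727 (look t 0)) 27))

/-- contribution of a cell to the 243-bit mask -/
noncomputable def cm (i j : Nat) (X : List Nat) : Nat :=
  List.rec (motive := fun _ => Nat) 0
    (fun x _ ih => Nat.lor ih (Nat.shiftLeft 1 (Nat.add (Nat.add i (Nat.mul 3 j)) (Nat.mul 9 x)))) X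

/-- the 243-bit mask -/
noncomputable def fullMask (X0 X1 X2 Z20 Z02 Z22 Y11 Y12 Y21 : List Nat) : Nat :=
  Nat.lor (cm 0 0 X0) (Nat.lor (cm 1 0 X1) (Nat.lor (cm 0 1 X2) (Nat.lor (cm 2 0 Z20)
    (Nat.lor (cm 0 2 Z02) (Nat.lor (cm 2 2 Z22) (Nat.lor (cm 1 1 Y11) (Nat.lor (cm 1 2 Y12)
      (cm 2 1 Y21))))))))

/-- the 5-cells -/
noncomputable def body3 (F X0 X1 X2 : List Nat) (t0 t1 t2 : Nat) (Z20 Z02 Z22 : List Nat)
    (a11 a12 a21 : Nat) : Bool :=
  force (Nat.lor (Nat.shiftLeft t1 27) (Nat.shiftLeft t2 54)) fun T =>
  enum T g55 (fun Y11 => force (diff a12 (orlook t1 Y11)) fun b12 =>
    force (diff a21 (orlook t2 Y11)) fun b21 =>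
    enum (Nat.shiftLeft t0 27) g5 (fun Y12 => force (diff b21 (orlook t0 Y12)) fun c21 =>
      enum 0 g0 (fun Y21 => force (fullMask X0 X1 X2 Z20 Z02 Z22 Y11 Y12 Y21) fun m => memb m F)
        30 5 [] c21)
      30 5 [] (Nat.lor b12 (Nat.shiftLeft b21 27)))
    30 5 [] (Nat.lor a11 (Nat.lor (Nat.shiftLeft a12 27) (Nat.shiftLeft a21 54)))

/-- the 2-cells are chosen; allowed masks of the 5-cells -/
noncomputable def body2 (F X0 X1 X2 : List Nat) (t0 t1 t2 : Nat) (Z20 Z02 Z22 : List Nat) : Bool :=
  force (diff (diff 134217727 (rows Z20 Z02)) (orlook t0 Z22)) fun a11 =>
  Bool.rec true (
  force (diff (diff 134217727 (rows Z20 Z22)) (orlook t1 Z02)) fun a21 =>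
  Bool.rec true (
  force (diff (diff 134217727 (rows Z02 Z22)) (orlook t2 Z20)) fun a12 =>
  Bool.rec true (body3 F X0 X1 X2 t0 t1 t2 Z20 Z02 Z22 a11 a12 a21) (ge5 a12)) (ge5 a21))
  (ge5 a11)

/-- choice of the 2-cells -/
noncomputable def body1 (F X0 X1 X2 : List Nat) (t0 t1 t2 r20 r22 : Nat) : Bool :=
  force (diff 134217727 (orlook t0 X2)) fun r02 =>
  enum 0 g0 (fun Z20 => enum 0 g0 (fun Z02 => enum 0 g0 (fun Z22 =>
    body2 F X0 X1 X2 t0 t1 t2 Z20 Z02 Z22) 30 2 [] r22) 30 2 [] r02) 30 2 [] r20

/-- the search over the pairs of 8-cells for a given first 8-cell -/
noncomputable def chkX1 (F X0 : List Nat) (L : List (List Nat × Nat)) (t0 : Nat)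
    (X1 : List Nat × Nat) : Bool :=
  force (diff 134217727 (orlook t0 X1.1)) fun r20 => allL (fun X2 =>
    force (diff 134217727 (orlook X1.2 X2.1)) fun r22 =>
      Bool.rec true (body1 F X0 X1.1 X2.1 t0 X1.2 X2.2 r20 r22) (ge2 r22)) L

/-- the whole search for one class of the cell `(0,0)` -/
noncomputable def chkT2 (F X0 : List Nat) (t0 : Nat) (R L : List (List Nat × Nat)) : Bool :=
  allL (chkX1 F X0 L t0) R

/-- the tables are correct -/
noncomputable def chkTab (L : List (List Nat × Nat)) : Bool :=
  allL (fun p => Nat.beq (tab p.1 27) p.2) L

end Pool.Agent.H29.EGZ
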