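import Mathlib
import Pool.Agent.H29.EGZ.B.EnumDef

/-!
# Soundness of the kernel functions
-/

set_option autoImplicit false

namespace Pool.Agent.H29.EGZ

open Finset

lemma force_eq {α : Type} (x : ℕ) (F : ℕ → α) : force x F = F x := by
  cases x <;> rfl

lemma bool_rec_eq {α : Type} (a b : α) (c : Bool) :
    (Bool.rec a b c : α) = if c = true then b else a := by
  cases c <;> rfl

/-! ### the third point on a line, in codes -/

/-- the code of `-(x+n)` -/
def T3 (x n : ℕ) : ℕ :=
  (6 - x % 3 - n % 3) % 3 + 3 * ((6 - x / 3 % 3 - n / 3 % 3) % 3) +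
    9 * ((6 - x / 9 % 3 - n / 9 % 3) % 3)

lemma T3_lt (x n : ℕ) : T3 x n < 27 := by
  unfold T3
  omega

lemma bit3_fin : ∀ x : Fin 27, ∀ n : Fin 27, bit3 x n = 2 ^ (T3 x n) := by
  decide +kernel

lemma bit3_eq {x n : ℕ} (hx : x < 27) (hn : n < 27) : bit3 x n = 2 ^ (T3 x n) :=
  bit3_fin ⟨x, hx⟩ ⟨n, hn⟩

lemma testBit_row {X : List ℕ} {n : ℕ} (hX : ∀ x ∈ X, x < 27) (hn : n < 27) (j : ℕ) :
    (row X n).testBit j = true ↔ ∃ x ∈ X, T3 x n = j := by
  induction X with
  | nil => simp [row]
  | cons a X ih =>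
    have h1 : row (a :: X) n = row X n ||| bit3 a n := rfl
    rw [h1, Nat.testBit_or, bit3_eq (hX a (by simp)) hn, Nat.testBit_two_pow, Bool.or_eq_true,
      ih (fun x hx => hX x (by simp [hx])), decide_eq_true_iff]
    constructor
    · rintro (⟨x, hx, h⟩ | h)
      · exact ⟨x, by simp [hx], h⟩
      · exact ⟨a, by simp, h⟩
    · rintro ⟨x, hx, h⟩
      rcases List.mem_cons.mp hx with rfl | hx
      · exact Or.inr h
      · exact Or.inl ⟨x, hx, h⟩

lemma row_lt {X : List ℕ} {n : ℕ} (hX : ∀ x ∈ X, x < 27) (hn : n < 27) : row X n < 2 ^ 27 := by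
  apply Nat.lt_pow_two_of_testBit
  intro j hj
  by_contra h
  rw [Bool.not_eq_false] at h
  obtain ⟨x, _, hx⟩ := (testBit_row hX hn j).mp h
  have := T3_lt x n
  omega

lemma testBit_rows {X Y : List ℕ} (hX : ∀ x ∈ X, x < 27) (hY : ∀ y ∈ Y, y < 27) (j : ℕ) :
    (rows X Y).testBit j = true ↔ ∃ x ∈ X, ∃ y ∈ Y, T3 x y = j := by
  induction Y with
  | nil => simp [rows]
  | cons a Y ih =>
    have h1 : rows X (a :: Y) = rows X Y ||| row X a := rfl
    rw [h1, Nat.testBit_or, Bool.or_eq_true, ih (fun y hy => hY y (by simp [hy])),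
      testBit_row hX (hY a (by simp))]
    constructor
    · rintro (⟨x, hx, y, hy, h⟩ | ⟨x, hx, h⟩)
      · exact ⟨x, hx, y, by simp [hy], h⟩
      · exact ⟨x, hx, a, by simp, h⟩
    · rintro ⟨x, hx, y, hy, h⟩
      rcases List.mem_cons.mp hy with rfl | hy
      · exact Or.inr ⟨x, hx, h⟩
      · exact Or.inl ⟨x, hx, y, hy, h⟩

lemma testBit_maskOf (X : List ℕ) (j : ℕ) : (maskOf X).testBit j = true ↔ j ∈ X := by
  induction X with
  | nil => simp [maskOf]
  | cons a X ih =>
    have h1 : maskOf (a :: X) = maskOf X ||| 1 <<< a := rfl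
    rw [h1, Nat.testBit_or, Bool.or_eq_true, ih, Nat.one_shiftLeft, Nat.testBit_two_pow,
      decide_eq_true_iff, List.mem_cons, or_comm, eq_comm]

lemma testBit_maskSub (X : List ℕ) (p j : ℕ) :
    (maskSub X p).testBit j = true ↔ ∃ x ∈ X, sub3 x p = j := by
  induction X with
  | nil => simp [maskSub]
  | cons a X ih =>
    have h1 : maskSub (a :: X) p = maskSub X p ||| 1 <<< (sub3 a p) := rfl
    rw [h1, Nat.testBit_or, Bool.or_eq_true, ih, Nat.one_shiftLeft, Nat.testBit_two_pow,
      decide_eq_true_iff]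
    constructor
    · rintro (⟨x, hx, h⟩ | h)
      · exact ⟨x, by simp [hx], h⟩
      · exact ⟨a, by simp, h⟩
    · rintro ⟨x, hx, h⟩
      rcases List.mem_cons.mp hx with rfl | hx
      · exact Or.inr h
      · exact Or.inl ⟨x, hx, h⟩

lemma testBit_cm (i j : ℕ) (X : List ℕ) (k : ℕ) :
    (cm i j X).testBit k = true ↔ ∃ x ∈ X, i + 3 * j + 9 * x = k := by
  induction X with
  | nil => simp [cm]
  | cons a X ih =>
    have h1 : cm i j (a :: X) = cm i j X ||| 1 <<< (i + 3 * j + 9 * a) := rfl
    rw [h1, Nat.testBit_or, Bool.or_eq_true, ih, Nat.one_shiftLeft, Nat.testBit_two_pow,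
      decide_eq_true_iff]
    constructor
    · rintro (⟨x, hx, h⟩ | h)
      · exact ⟨x, by simp [hx], h⟩
      · exact ⟨a, by simp, h⟩
    · rintro ⟨x, hx, h⟩
      rcases List.mem_cons.mp hx with rfl | hx
      · exact Or.inr h
      · exact Or.inl ⟨x, hx, h⟩

lemma testBit_diff (x y j : ℕ) :
    (diff x y).testBit j = (x.testBit j && !(y.testBit j)) := by
  show (x ^^^ (x &&& y)).testBit j = _
  rw [Nat.testBit_xor, Nat.testBit_and]
  cases x.testBit j <;> cases y.testBit j <;> rfl

lemma testBit_full (j : ℕ) : (134217727 : ℕ).testBit j = decide (j < 27) := by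
  have : (134217727 : ℕ) = 2 ^ 27 - 1 := by norm_num
  rw [this, Nat.testBit_two_pow_sub_one]

lemma testBit_full81 (j : ℕ) : (2417851639229258349412351 : ℕ).testBit j = decide (j < 81) := by
  have : (2417851639229258349412351 : ℕ) = 2 ^ 81 - 1 := by norm_num
  rw [this, Nat.testBit_two_pow_sub_one]

lemma memb_iff (x : ℕ) (L : List ℕ) : memb x L = true ↔ x ∈ L := by
  induction L with
  | nil => simp [memb]
  | cons a L ih =>
    have h1 : memb x (a :: L) = (Bool.rec (memb x L) true (Nat.beq x a) : Bool) := rfl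
    rw [h1, bool_rec_eq, List.mem_cons]
    by_cases h : x = a
    · simp [h]
    · have : Nat.beq x a = false := by
        cases hb : Nat.beq x a
        · rfl
        · exact absurd (Nat.eq_of_beq_eq_true hb) h
      simp [this, h, ih]

lemma allL_iff {α : Type} (P : α → Bool) (L : List α) :
    allL P L = true ↔ ∀ x ∈ L, P x = true := by
  induction L with
  | nil => simp [allL]
  | cons a L ih =>
    have h1 : allL P (a :: L) = (Bool.rec false (allL P L) (P a) : Bool) := rfl
    rw [h1, bool_rec_eq]
    by_cases h : P a = true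
    · simp [h, ih]
    · simp [h]

lemma anyL_iff {α : Type} (P : α → Bool) (L : List α) :
    anyL P L = true ↔ ∃ x ∈ L, P x = true := by
  induction L with
  | nil => simp [anyL]
  | cons a L ih =>
    have h1 : anyL P (a :: L) = (Bool.rec (anyL P L) true (P a) : Bool) := rfl
    rw [h1, bool_rec_eq]
    by_cases h : P a = true
    · simp [h]
    · simp [h, ih]

/-! ### tables -/

lemma testBit_tab (X : List ℕ) (hX : ∀ x ∈ X, x < 27) (N : ℕ) (hN : N ≤ 27) (j : ℕ) :
    (tab X N).testBit j = true ↔ ∃ n < N, 81 * n ≤ j ∧ (row X n).testBit (j - 81 * n) = true := by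
  induction N with
  | zero => simp [tab]
  | succ N ih =>
    have h1 : tab X (N + 1) = tab X N ||| (row X N) <<< (81 * N) := rfl
    rw [h1, Nat.testBit_or, Bool.or_eq_true, ih (by omega), Nat.testBit_shiftLeft,
      Bool.and_eq_true, decide_eq_true_iff]
    constructor
    · rintro (⟨n, hn, h⟩ | h)
      · exact ⟨n, by omega, h⟩
      · exact ⟨N, by omega, h⟩
    · rintro ⟨n, hn, h⟩
      rcases Nat.lt_succ_iff_lt_or_eq.mp hn with hn | rfl
      · exact Or.inl ⟨n, hn, h⟩
      · exact Or.inr h

/-- `t` is the table of `X` -/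
def IsTab (t : ℕ) (X : List ℕ) : Prop :=
  ∀ n < 27, ∀ j < 81, t.testBit (81 * n + j) = true ↔ ∃ x ∈ X, T3 x n = j

lemma isTab_tab {X : List ℕ} (hX : ∀ x ∈ X, x < 27) : IsTab (tab X 27) X := by
  intro n hn j hj
  rw [testBit_tab X hX 27 le_rfl]
  constructor
  · rintro ⟨m, hm, h1, h2⟩
    obtain ⟨x, hx, h3⟩ := (testBit_row hX hm _).mp h2
    have h4 := T3_lt x m
    have : m = n := by omega
    subst this
    refine ⟨x, hx, ?_⟩
    rw [h3]
    omega
  · rintro ⟨x, hx, h⟩
    refine ⟨n, hn, by omega, ?_⟩
    rw [testBit_row hX hn]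
    exact ⟨x, hx, by rw [h]; omega⟩

lemma testBit_look {t : ℕ} {X : List ℕ} (ht : IsTab t X) {n : ℕ} (hn : n < 27) (j : ℕ) :
    (look t n).testBit j = true ↔ ∃ x ∈ X, T3 x n = j := by
  show ((t >>> (81 * n)) &&& 134217727).testBit j = true ↔ _
  rw [Nat.testBit_and, testBit_full, Nat.testBit_shiftRight, Bool.and_eq_true, decide_eq_true_iff]
  constructor
  · rintro ⟨h1, h2⟩
    rw [← ht n hn j (by omega)]
    exact h1
  · rintro ⟨x, hx, h⟩
    have h3 := T3_lt x n
    refine ⟨?_, by omega⟩
    exact (ht n hn j (by omega)).mpr ⟨x, hx, h⟩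

lemma testBit_orlook {t : ℕ} {X : List ℕ} (ht : IsTab t X) {Y : List ℕ} (hY : ∀ y ∈ Y, y < 27)
    (j : ℕ) : (orlook t Y).testBit j = true ↔ ∃ y ∈ Y, ∃ x ∈ X, T3 x y = j := by
  induction Y with
  | nil => simp [orlook]
  | cons a Y ih =>
    have h1 : orlook t (a :: Y) = orlook t Y ||| look t a := rfl
    rw [h1, Nat.testBit_or, Bool.or_eq_true, ih (fun y hy => hY y (by simp [hy])),
      testBit_look ht (hY a (by simp))]
    constructor
    · rintro (⟨y, hy, h⟩ | h)
      · exact ⟨y, by simp [hy], h⟩
      · exact ⟨a, by simp, h⟩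
    · rintro ⟨y, hy, h⟩
      rcases List.mem_cons.mp hy with rfl | hy
      · exact Or.inr h
      · exact Or.inl ⟨y, hy, h⟩

/-- the free part of a watching table: the bits `27, …` are the table shifted -/
lemma testBit_lookT (T n j : ℕ) (hj : j < 81) : (lookT T n).testBit j = T.testBit (81 * n + j) := by
  show ((T >>> (81 * n)) &&& 2417851639229258349412351).testBit j = _
  rw [Nat.testBit_and, testBit_full81, Nat.testBit_shiftRight]
  simp [hj]

/-! ### clearing the lowest bit -/

lemma clb_spec (x : ℕ) : ∃ b : ℕ, ∀ j, j ≠ b → (clb x).testBit j = x.testBit j := by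
  induction x using Nat.strong_induction_on with
  | _ x ih =>
    show ∃ b : ℕ, ∀ j, j ≠ b → (x &&& (x - 1)).testBit j = x.testBit j
    rcases Nat.eq_zero_or_pos x with rfl | hx
    · exact ⟨0, fun j _ => by simp⟩
    rcases Nat.even_or_odd' x with ⟨y, rfl | rfl⟩
    · obtain ⟨b, hb⟩ := ih y (by omega)
      refine ⟨b + 1, fun j hj => ?_⟩
      rw [Nat.testBit_and]
      cases j with
      | zero =>
        simp
      | succ j =>
        have h1 : (2 * y).testBit (j + 1) = y.testBit j := by
          rw [Nat.testBit_succ]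
          congr 1
          omega
        have h2 : (2 * y - 1).testBit (j + 1) = (y - 1).testBit j := by
          rw [Nat.testBit_succ]
          congr 1
          omega
        rw [h1, h2]
        have h3 := hb j (by omega)
        change (y &&& (y - 1)).testBit j = _ at h3
        rw [Nat.testBit_and] at h3
        exact h3
    · refine ⟨0, fun j hj => ?_⟩
      obtain ⟨k, rfl⟩ : ∃ k, j = k + 1 := ⟨j - 1, by omega⟩
      rw [Nat.testBit_and, Nat.testBit_succ, Nat.testBit_succ]
      have h1 : (2 * y + 1) / 2 = y := by omega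
      have h2 : (2 * y + 1 - 1) / 2 = y := by omega
      rw [h1, h2, Bool.and_self]

/-- a set of bits -/
def Bits (R : Finset ℕ) (x : ℕ) : Prop := ∀ z ∈ R, x.testBit z = true

lemma bits_clb {R : Finset ℕ} {x : ℕ} (h : Bits R x) : ∃ R' ⊆ R, R.card ≤ R'.card + 1 ∧
    Bits R' (clb x) := by
  obtain ⟨b, hb⟩ := clb_spec x
  refine ⟨R.erase b, Finset.erase_subset _ _, ?_, ?_⟩
  · have := Finset.pred_card_le_card_erase (s := R) (a := b)
    omega
  · intro z hz
    rw [hb z (Finset.ne_of_mem_erase hz)]
    exact h z (Finset.mem_of_mem_erase hz)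

lemma pos_of_bits {R : Finset ℕ} {x : ℕ} (h : Bits R x) (hR : 1 ≤ R.card) : Nat.ble 1 x = true := by
  obtain ⟨z, hz⟩ := Finset.card_pos.mp hR
  rw [Nat.ble_eq]
  rcases Nat.eq_zero_or_pos x with rfl | hx
  · have := h z hz
    simp at this
  · exact hx

lemma ge2_of_bits {R : Finset ℕ} {x : ℕ} (h : Bits R x) (hR : 2 ≤ R.card) : ge2 x = true := by
  obtain ⟨R1, _, h1, hb1⟩ := bits_clb h
  exact pos_of_bits hb1 (by omega)

lemma ge5_of_bits {R : Finset ℕ} {x : ℕ} (h : Bits R x) (hR : 5 ≤ R.card) : ge5 x = true := by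
  obtain ⟨R1, _, h1, hb1⟩ := bits_clb h
  obtain ⟨R2, _, h2, hb2⟩ := bits_clb hb1
  obtain ⟨R3, _, h3, hb3⟩ := bits_clb hb2
  obtain ⟨R4, _, h4, hb4⟩ := bits_clb hb3
  exact pos_of_bits hb4 (by omega)

/-! ### the enumeration -/

lemma enum_zero (T : ℕ) (g : ℕ → Bool) (leaf : List ℕ → Bool) (fuel : ℕ) (c : List ℕ) (A : ℕ) :
    enum T g leaf fuel 0 c A = leaf c := by
  cases fuel <;> rfl

lemma enum_succ (T : ℕ) (g : ℕ → Bool) (leaf : List ℕ → Bool) (fuel k : ℕ) (c : List ℕ) (A : ℕ) :
    enum T g leaf (fuel + 1) (k + 1) c A =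
      if A &&& 134217727 = 0 then true else
      if enum T g leaf fuel (k + 1) c (A ^^^ (1 <<< Nat.log2 (A &&& 134217727))) = true then
        (if g (diff (A ^^^ (1 <<< Nat.log2 (A &&& 134217727)))
            (row c (Nat.log2 (A &&& 134217727)) ||| lookT T (Nat.log2 (A &&& 134217727)))) = true
          then enum T g leaf fuel k (Nat.log2 (A &&& 134217727) :: c)
            (diff (A ^^^ (1 <<< Nat.log2 (A &&& 134217727)))
            (row c (Nat.log2 (A &&& 134217727)) ||| lookT T (Nat.log2 (A &&& 134217727))))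
          else true)
      else false := by
  have h1 : enum T g leaf (fuel + 1) (k + 1) c A =
      force (Nat.land A 134217727) (fun a => Bool.rec
        (force (Nat.log2 a) fun v => force (Nat.xor A (Nat.shiftLeft 1 v)) fun A1 =>
          Bool.rec false
          (force (diff A1 (Nat.lor (row c v) (lookT T v))) fun A' =>
              Bool.rec true (enum T g leaf fuel k (v :: c) A') (g A'))
          (enum T g leaf fuel (Nat.succ k) c A1))
        true
        (Nat.beq a 0)) := rfl
  rw [h1]
  simp only [force_eq, bool_rec_eq]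
  have h2 : (Nat.beq (Nat.land A 134217727) 0 = true) ↔ (A &&& 134217727 = 0) := by
    constructor
    · intro h; exact Nat.eq_of_beq_eq_true h
    · intro h
      show Nat.beq (A &&& 134217727) 0 = true
      rw [h]; rfl
  simp only [h2]
  rfl

theorem enum_sound {T : ℕ} {g : ℕ → Bool} {leaf : List ℕ → Bool} (R : Finset ℕ)
    (hR27 : ∀ ρ ∈ R, 27 ≤ ρ ∧ ρ < 81) (hg : ∀ A : ℕ, Bits R A → g A = true) :
    ∀ (fuel k : ℕ) (c : List ℕ) (A : ℕ), enum T g leaf fuel k c A = true →
    (∀ x ∈ c, x < 27) →
    ∀ S : Finset ℕ, S.card = k → (∀ v ∈ S, v < 27) → Bits S A → Bits R A →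
    (∀ p ∈ c, ∀ x ∈ S, T3 p x ∉ S) → (∀ p ∈ S, ∀ x ∈ S, p ≠ x → T3 p x ∉ S) →
    (∀ v ∈ S, ∀ y, y ∈ S ∨ y ∈ R → (lookT T v).testBit y = false) →
    ∃ l : List ℕ, (∀ x, x ∈ l ↔ x ∈ S ∨ x ∈ c) ∧ leaf l = true := by
  intro fuel
  induction fuel with
  | zero =>
    intro k c A h hc S hS _ _ _ _ _ _
    cases k with
    | zero =>
      rw [Finset.card_eq_zero] at hS
      exact ⟨c, fun x => by simp [hS], h⟩
    | succ k => exact absurd h (by change ¬ (false = true); decide)
  | succ fuel ih =>
    intro k c A h hc S hS hS27 hSA hRA hcap1 hcap2 hT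
    cases k with
    | zero =>
      rw [enum_zero] at h
      rw [Finset.card_eq_zero] at hS
      exact ⟨c, fun x => by simp [hS], h⟩
    | succ k =>
      rw [enum_succ] at h
      set a := A &&& 134217727 with ha
      have hne : a ≠ 0 := by
        intro h0
        obtain ⟨z, hz⟩ := Finset.card_pos.mp (by omega : 0 < S.card)
        have h1 : a.testBit z = true := by
          rw [ha, Nat.testBit_and, testBit_full, hSA z hz]
          simp [hS27 z hz]
        rw [h0] at h1
        simp at h1
      rw [if_neg hne] at h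
      set v := Nat.log2 a with hv
      have hva : a.testBit v = true := Nat.testBit_log2 hne
      have hv27 : v < 27 := by
        rw [ha, Nat.testBit_and, testBit_full, Bool.and_eq_true, decide_eq_true_iff] at hva
        exact hva.2
      have hx : ∀ j, j ≠ v → (A ^^^ (1 <<< v)).testBit j = A.testBit j := by
        intro j hj
        rw [Nat.testBit_xor, Nat.one_shiftLeft, Nat.testBit_two_pow_of_ne (Ne.symm hj)]
        simp
      by_cases hskip : enum T g leaf fuel (k + 1) c (A ^^^ (1 <<< v)) = true
      swap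
      · rw [if_neg hskip] at h
        exact absurd h (by decide)
      rw [if_pos hskip] at h
      by_cases hvS : v ∈ S
      · -- the point is chosen
        have hT' := hT v hvS
        have hrow : ∀ y, y ∈ S ∨ y ∈ R → (row c v).testBit y = false := by
          intro y hy
          by_contra hb
          rw [Bool.not_eq_false] at hb
          obtain ⟨p, hp, hpv⟩ := (testBit_row hc hv27 y).mp hb
          rcases hy with hy | hy
          · exact hcap1 p hp v hvS (hpv ▸ hy)
          · have := T3_lt p v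
            have := (hR27 y hy).1
            omega
        have hnew : ∀ y, y ≠ v → (y ∈ S ∨ y ∈ R) →
            (diff (A ^^^ (1 <<< v)) (row c v ||| lookT T v)).testBit y = A.testBit y := by
          intro y hyv hy
          rw [testBit_diff, hx y hyv, Nat.testBit_or, hrow y hy, hT' y hy]
          simp
        have hRA' : Bits R (diff (A ^^^ (1 <<< v)) (row c v ||| lookT T v)) := by
          intro y hy
          rw [hnew y (by have := (hR27 y hy).1; omega) (Or.inr hy)]
          exact hRA y hy
        rw [if_pos (hg _ hRA')] at h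
        obtain ⟨l, hl, hleaf⟩ := ih k (v :: c) _ h (by
            intro x hx'
            rcases List.mem_cons.mp hx' with rfl | hx'
            · exact hv27
            · exact hc x hx') (S.erase v) (by rw [Finset.card_erase_of_mem hvS, hS]; rfl)
          (fun y hy => hS27 y (Finset.mem_of_mem_erase hy))
          (by
            intro y hy
            rw [hnew y (Finset.ne_of_mem_erase hy) (Or.inl (Finset.mem_of_mem_erase hy))]
            exact hSA y (Finset.mem_of_mem_erase hy)) hRA'
          (by
            intro p hp x hxS hmem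
            have hxS' := Finset.mem_of_mem_erase hxS
            have hmem' := Finset.mem_of_mem_erase hmem
            rcases List.mem_cons.mp hp with rfl | hp
            · exact hcap2 _ hvS x hxS' (Finset.ne_of_mem_erase hxS).symm hmem'
            · exact hcap1 p hp x hxS' hmem')
          (by
            intro p hp x hxS hne' hmem
            exact hcap2 p (Finset.mem_of_mem_erase hp) x (Finset.mem_of_mem_erase hxS) hne'
              (Finset.mem_of_mem_erase hmem))
          (by
            intro w hw y hy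
            exact hT w (Finset.mem_of_mem_erase hw) y (hy.imp_left Finset.mem_of_mem_erase))
        refine ⟨l, fun x => ?_, hleaf⟩
        rw [hl x, Finset.mem_erase, List.mem_cons]
        constructor
        · rintro (⟨_, h1⟩ | rfl | h1)
          · exact Or.inl h1
          · exact Or.inl hvS
          · exact Or.inr h1
        · rintro (h1 | h1)
          · by_cases hxv : x = v
            · exact Or.inr (Or.inl hxv)
            · exact Or.inl ⟨hxv, h1⟩
          · exact Or.inr (Or.inr h1)
      · refine ih (k + 1) c _ hskip hc S hS hS27 ?_ ?_ hcap1 hcap2 hT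
        · intro y hy
          rw [hx y (fun h' => hvS (h' ▸ hy))]
          exact hSA y hy
        · intro y hy
          rw [hx y (by have := (hR27 y hy).1; omega)]
          exact hRA y hy

end Pool.Agent.H29.EGZ
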