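import Mathlib
import Pool.Agent.H29.EGZ.Layout
import Pool.Agent.H29.EGZ.B.Enum

/-!
# Codes of points, cells in codes, affine maps in codes
-/

set_option autoImplicit false

namespace Pool.Agent.H29.EGZ

open Finset Matrix

/-! ### codes -/

/-- the code of a point -/
def enc (u : W5) : ℕ :=
  (u 0).val + 3 * (u 1).val + 9 * (u 2).val + 27 * (u 3).val + 81 * (u 4).val

lemma val_lt3 (a : ZMod 3) : a.val < 3 := ZMod.val_lt a

lemma enc_lt (u : W5) : enc u < 243 := by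
  unfold enc
  have := val_lt3 (u 0)
  have := val_lt3 (u 1)
  have := val_lt3 (u 2)
  have := val_lt3 (u 3)
  have := val_lt3 (u 4)
  omega

lemma dec_apply (n : ℕ) (i : Fin 5) : dec n i = ((n / 3 ^ (i : ℕ) % 3 : ℕ) : ZMod 3) := rfl

lemma dec_0 (n : ℕ) : dec n 0 = ((n % 3 : ℕ) : ZMod 3) := by
  rw [dec_apply]; simp

lemma dec_1 (n : ℕ) : dec n 1 = ((n / 3 % 3 : ℕ) : ZMod 3) := by
  rw [dec_apply]; norm_num

lemma dec_2 (n : ℕ) : dec n 2 = ((n / 9 % 3 : ℕ) : ZMod 3) := by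
  rw [dec_apply]; norm_num

lemma dec_3 (n : ℕ) : dec n 3 = ((n / 27 % 3 : ℕ) : ZMod 3) := by
  rw [dec_apply]; norm_num [show ((3 : Fin 5) : ℕ) = 3 from rfl]

lemma dec_4 (n : ℕ) : dec n 4 = ((n / 81 % 3 : ℕ) : ZMod 3) := by
  rw [dec_apply]; norm_num [show ((4 : Fin 5) : ℕ) = 4 from rfl]

lemma val_cast3 {k : ℕ} (h : k < 3) : ((k : ℕ) : ZMod 3).val = k := ZMod.val_cast_of_lt h

lemma cast_val3 (a : ZMod 3) : ((a.val : ℕ) : ZMod 3) = a := ZMod.natCast_zmod_val a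

lemma enc_dec {n : ℕ} (h : n < 243) : enc (dec n) = n := by
  unfold enc
  rw [dec_0, dec_1, dec_2, dec_3, dec_4, val_cast3 (Nat.mod_lt _ (by norm_num)),
    val_cast3 (Nat.mod_lt _ (by norm_num)), val_cast3 (Nat.mod_lt _ (by norm_num)),
    val_cast3 (Nat.mod_lt _ (by norm_num)), val_cast3 (Nat.mod_lt _ (by norm_num))]
  omega

lemma dec_enc (u : W5) : dec (enc u) = u := by
  have h0 := val_lt3 (u 0)
  have h1 := val_lt3 (u 1)
  have h2 := val_lt3 (u 2)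
  have h3 := val_lt3 (u 3)
  have h4 := val_lt3 (u 4)
  funext i
  fin_cases i
  · show dec (enc u) 0 = u 0
    rw [dec_0, ← cast_val3 (u 0)]
    congr 1
    unfold enc
    omega
  · show dec (enc u) 1 = u 1
    rw [dec_1, ← cast_val3 (u 1)]
    congr 1
    unfold enc
    omega
  · show dec (enc u) 2 = u 2
    rw [dec_2, ← cast_val3 (u 2)]
    congr 1
    unfold enc
    omega
  · show dec (enc u) 3 = u 3
    rw [dec_3, ← cast_val3 (u 3)]
    congr 1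
    unfold enc
    omega
  · show dec (enc u) 4 = u 4
    rw [dec_4, ← cast_val3 (u 4)]
    congr 1
    unfold enc
    omega

lemma dec_inj {m n : ℕ} (hm : m < 243) (hn : n < 243) (h : dec m = dec n) : m = n := by
  rw [← enc_dec hm, ← enc_dec hn, h]

/-- the cell `(i, j)` in codes -/
def cs (D : Finset W5) (i j : ℕ) : Finset ℕ :=
  (range 27).filter (fun v => dec (i + 3 * j + 9 * v) ∈ D)

lemma mem_cs {D : Finset W5} {i j v : ℕ} :
    v ∈ cs D i j ↔ v < 27 ∧ dec (i + 3 * j + 9 * v) ∈ D := by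
  simp [cs]

lemma cs_lt {D : Finset W5} {i j v : ℕ} (h : v ∈ cs D i j) : v < 27 := (mem_cs.mp h).1

lemma card_cs (D : Finset W5) {i j : ℕ} (hi : i < 3) (hj : j < 3) :
    (cs D i j).card = (cell D (i : ZMod 3) (j : ZMod 3)).card := by
  refine Finset.card_bij (fun v _ => dec (i + 3 * j + 9 * v)) ?_ ?_ ?_
  · intro v hv
    obtain ⟨hv27, hvD⟩ := mem_cs.mp hv
    simp only [cell, Finset.mem_filter]
    refine ⟨hvD, ?_, ?_⟩
    · rw [dec_0]; congr 1; omega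
    · rw [dec_1]; congr 1; omega
  · intro v hv w hw h
    have hv27 := cs_lt hv
    have hw27 := cs_lt hw
    have := dec_inj (by omega) (by omega) h
    omega
  · intro u hu
    simp only [cell, Finset.mem_filter] at hu
    obtain ⟨huD, h0, h1⟩ := hu
    have e0 : (u 0).val = i := by rw [h0]; exact val_cast3 hi
    have e1 : (u 1).val = j := by rw [h1]; exact val_cast3 hj
    have h2 := val_lt3 (u 2)
    have h3 := val_lt3 (u 3)
    have h4 := val_lt3 (u 4)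
    have henc : i + 3 * j + 9 * ((u 2).val + 3 * (u 3).val + 9 * (u 4).val) = enc u := by
      unfold enc
      omega
    refine ⟨(u 2).val + 3 * (u 3).val + 9 * (u 4).val, ?_, ?_⟩
    · rw [mem_cs, henc, dec_enc]
      exact ⟨by omega, huD⟩
    · rw [henc, dec_enc]

lemma cast_zero_of_mod {k : ℕ} (h : k % 3 = 0) : ((k : ℕ) : ZMod 3) = 0 := by
  rw [ZMod.natCast_eq_zero_iff]
  exact Nat.dvd_of_mod_eq_zero h

lemma dec_sum_three {m n k : ℕ} (h0 : (m % 3 + n % 3 + k % 3) % 3 = 0)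
    (h1 : (m / 3 % 3 + n / 3 % 3 + k / 3 % 3) % 3 = 0)
    (h2 : (m / 9 % 3 + n / 9 % 3 + k / 9 % 3) % 3 = 0)
    (h3 : (m / 27 % 3 + n / 27 % 3 + k / 27 % 3) % 3 = 0)
    (h4 : (m / 81 % 3 + n / 81 % 3 + k / 81 % 3) % 3 = 0) :
    dec m + dec n + dec k = 0 := by
  funext i
  rw [Pi.add_apply, Pi.add_apply, Pi.zero_apply]
  fin_cases i
  · show dec m 0 + dec n 0 + dec k 0 = 0
    rw [dec_0, dec_0, dec_0, ← Nat.cast_add, ← Nat.cast_add]
    exact cast_zero_of_mod h0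
  · show dec m 1 + dec n 1 + dec k 1 = 0
    rw [dec_1, dec_1, dec_1, ← Nat.cast_add, ← Nat.cast_add]
    exact cast_zero_of_mod h1
  · show dec m 2 + dec n 2 + dec k 2 = 0
    rw [dec_2, dec_2, dec_2, ← Nat.cast_add, ← Nat.cast_add]
    exact cast_zero_of_mod h2
  · show dec m 3 + dec n 3 + dec k 3 = 0
    rw [dec_3, dec_3, dec_3, ← Nat.cast_add, ← Nat.cast_add]
    exact cast_zero_of_mod h3
  · show dec m 4 + dec n 4 + dec k 4 = 0
    rw [dec_4, dec_4, dec_4, ← Nat.cast_add, ← Nat.cast_add]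
    exact cast_zero_of_mod h4

lemma dig5 {i j v : ℕ} (hi : i < 3) (hj : j < 3) (_hv : v < 27) :
    (i + 3 * j + 9 * v) % 3 = i ∧ (i + 3 * j + 9 * v) / 3 % 3 = j ∧
    (i + 3 * j + 9 * v) / 9 % 3 = v % 3 ∧ (i + 3 * j + 9 * v) / 27 % 3 = v / 3 % 3 ∧
    (i + 3 * j + 9 * v) / 81 % 3 = v / 9 % 3 := by
  refine ⟨by omega, by omega, by omega, by omega, by omega⟩

lemma dig3 {x y z : ℕ} (hx : x < 3) (hy : y < 3) (hz : z < 3) :
    (x + 3 * y + 9 * z) % 3 = x ∧ (x + 3 * y + 9 * z) / 3 % 3 = y ∧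
    (x + 3 * y + 9 * z) / 9 % 3 = z := by
  refine ⟨by omega, by omega, by omega⟩

lemma T3_dig (a b : ℕ) : T3 a b % 3 = (6 - a % 3 - b % 3) % 3 ∧
    T3 a b / 3 % 3 = (6 - a / 3 % 3 - b / 3 % 3) % 3 ∧
    T3 a b / 9 % 3 = (6 - a / 9 % 3 - b / 9 % 3) % 3 :=
  dig3 (Nat.mod_lt _ (by norm_num)) (Nat.mod_lt _ (by norm_num)) (Nat.mod_lt _ (by norm_num))

lemma sum_T3 {x y : ℕ} (hx : x < 3) (hy : y < 3) : (x + y + (6 - x - y) % 3) % 3 = 0 := by
  omega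

lemma code_inj {i1 j1 i2 j2 a b : ℕ} (hi1 : i1 < 3) (hi2 : i2 < 3) (hj1 : j1 < 3) (hj2 : j2 < 3)
    (h : i1 + 3 * j1 + 9 * a = i2 + 3 * j2 + 9 * b) : i1 = i2 ∧ j1 = j2 ∧ a = b := by
  omega

lemma code_lt {i j v : ℕ} (hi : i < 3) (hj : j < 3) (hv : v < 27) : i + 3 * j + 9 * v < 243 := by
  omega

/-- the cap condition in codes -/
lemma cap_cs {D : Finset W5} (hD : IsCap D) {i1 j1 i2 j2 i3 j3 a b : ℕ}
    (hi1 : i1 < 3) (hi2 : i2 < 3) (hi3 : i3 < 3) (hj1 : j1 < 3) (hj2 : j2 < 3) (hj3 : j3 < 3)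
    (hi : (i1 + i2 + i3) % 3 = 0) (hj : (j1 + j2 + j3) % 3 = 0)
    (ha : a ∈ cs D i1 j1) (hb : b ∈ cs D i2 j2) (hne : ¬ (i1 = i2 ∧ j1 = j2 ∧ a = b)) :
    T3 a b ∉ cs D i3 j3 := by
  intro hc
  obtain ⟨ha27, haD⟩ := mem_cs.mp ha
  obtain ⟨hb27, hbD⟩ := mem_cs.mp hb
  obtain ⟨_, hcD⟩ := mem_cs.mp hc
  have h27 := T3_lt a b
  obtain ⟨a0, a1, a2, a3, a4⟩ := dig5 hi1 hj1 ha27
  obtain ⟨b0, b1, b2, b3, b4⟩ := dig5 hi2 hj2 hb27
  obtain ⟨c0, c1, c2, c3, c4⟩ := dig5 hi3 hj3 h27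
  obtain ⟨t0, t1, t2⟩ := T3_dig a b
  have hs : dec (i1 + 3 * j1 + 9 * a) + dec (i2 + 3 * j2 + 9 * b) +
      dec (i3 + 3 * j3 + 9 * T3 a b) = 0 := by
    apply dec_sum_three
    · rw [a0, b0, c0, hi]
    · rw [a1, b1, c1, hj]
    · rw [a2, b2, c2, t0]
      exact sum_T3 (Nat.mod_lt _ (by norm_num)) (Nat.mod_lt _ (by norm_num))
    · rw [a3, b3, c3, t1]
      exact sum_T3 (Nat.mod_lt _ (by norm_num)) (Nat.mod_lt _ (by norm_num))
    · rw [a4, b4, c4, t2]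
      exact sum_T3 (Nat.mod_lt _ (by norm_num)) (Nat.mod_lt _ (by norm_num))
  have n1 : dec (i1 + 3 * j1 + 9 * a) ≠ dec (i2 + 3 * j2 + 9 * b) := by
    intro h
    exact hne (code_inj hi1 hi2 hj1 hj2
      (dec_inj (code_lt hi1 hj1 ha27) (code_lt hi2 hj2 hb27) h))
  have h3 : ∀ z : W5, z + z + z = 0 := fun z => by
    have := three_smul_W5 z
    rw [← this]; abel
  have n2 : dec (i1 + 3 * j1 + 9 * a) ≠ dec (i3 + 3 * j3 + 9 * T3 a b) := by
    intro h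
    apply n1
    rw [← h] at hs
    have h4 := h3 (dec (i1 + 3 * j1 + 9 * a))
    have h5 : dec (i1 + 3 * j1 + 9 * a) - dec (i2 + 3 * j2 + 9 * b) =
        (dec (i1 + 3 * j1 + 9 * a) + dec (i1 + 3 * j1 + 9 * a) + dec (i1 + 3 * j1 + 9 * a)) -
        (dec (i1 + 3 * j1 + 9 * a) + dec (i2 + 3 * j2 + 9 * b) + dec (i1 + 3 * j1 + 9 * a)) := by
      abel
    rw [h4, hs, sub_zero] at h5
    exact sub_eq_zero.mp h5
  have n3 : dec (i2 + 3 * j2 + 9 * b) ≠ dec (i3 + 3 * j3 + 9 * T3 a b) := by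
    intro h
    apply n1
    rw [← h] at hs
    have h4 := h3 (dec (i2 + 3 * j2 + 9 * b))
    have h5 : dec (i1 + 3 * j1 + 9 * a) - dec (i2 + 3 * j2 + 9 * b) =
        (dec (i1 + 3 * j1 + 9 * a) + dec (i2 + 3 * j2 + 9 * b) + dec (i2 + 3 * j2 + 9 * b)) -
        (dec (i2 + 3 * j2 + 9 * b) + dec (i2 + 3 * j2 + 9 * b) + dec (i2 + 3 * j2 + 9 * b)) := by
      abel
    rw [h4, hs, sub_zero] at h5
    exact sub_eq_zero.mp h5
  exact hD.ne_zero haD hbD hcD n1 n2 n3 hs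

/-! ### affine maps in codes -/

/-- digit `i` of the image -/
def rw5 (M t i n : ℕ) : ℕ :=
  Nat.mod (Nat.add (Nat.add (Nat.add (Nat.add (Nat.add
    (Nat.mul (Nat.mod (Nat.div M (Nat.pow 3 (Nat.mul 5 i))) 3) (Nat.mod n 3))
    (Nat.mul (Nat.mod (Nat.div M (Nat.pow 3 (Nat.add (Nat.mul 5 i) 1))) 3) (Nat.mod (Nat.div n 3) 3)))
    (Nat.mul (Nat.mod (Nat.div M (Nat.pow 3 (Nat.add (Nat.mul 5 i) 2))) 3) (Nat.mod (Nat.div n 9) 3)))
    (Nat.mul (Nat.mod (Nat.div M (Nat.pow 3 (Nat.add (Nat.mul 5 i) 3))) 3) (Nat.mod (Nat.div n 27) 3)))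
    (Nat.mul (Nat.mod (Nat.div M (Nat.pow 3 (Nat.add (Nat.mul 5 i) 4))) 3) (Nat.mod (Nat.div n 81) 3)))
    (Nat.mod (Nat.div t (Nat.pow 3 i)) 3)) 3

/-- the affine map in codes -/
def act5 (M t n : ℕ) : ℕ :=
  Nat.add (Nat.add (Nat.add (Nat.add (rw5 M t 0 n) (Nat.mul 3 (rw5 M t 1 n)))
    (Nat.mul 9 (rw5 M t 2 n))) (Nat.mul 27 (rw5 M t 3 n))) (Nat.mul 81 (rw5 M t 4 n))

/-- the matrix with code `M` -/
def mat5 (M : ℕ) : Matrix (Fin 5) (Fin 5) (ZMod 3) :=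
  Matrix.of fun i j => ((M / 3 ^ (5 * (i : ℕ) + (j : ℕ)) % 3 : ℕ) : ZMod 3)

lemma rw5_lt (M t i n : ℕ) : rw5 M t i n < 3 := Nat.mod_lt _ (by norm_num)

lemma rw5_cast (M t n : ℕ) (i : Fin 5) :
    ((rw5 M t i n : ℕ) : ZMod 3) = (mat5 M *ᵥ dec n + dec t) i := by
  have h1 : rw5 M t i n = ((M / 3 ^ (5 * (i : ℕ)) % 3) * (n % 3) +
      (M / 3 ^ (5 * (i : ℕ) + 1) % 3) * (n / 3 % 3) + (M / 3 ^ (5 * (i : ℕ) + 2) % 3) * (n / 9 % 3) +
      (M / 3 ^ (5 * (i : ℕ) + 3) % 3) * (n / 27 % 3) +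
      (M / 3 ^ (5 * (i : ℕ) + 4) % 3) * (n / 81 % 3) + t / 3 ^ (i : ℕ) % 3) % 3 := rfl
  rw [h1, ZMod.natCast_mod]
  push_cast
  rw [Pi.add_apply]
  simp only [mulVec, dotProduct, Fin.sum_univ_five]
  rw [dec_0, dec_1, dec_2, dec_3, dec_4, dec_apply]
  have e : ∀ j : Fin 5, mat5 M i j = ((M / 3 ^ (5 * (i : ℕ) + (j : ℕ)) % 3 : ℕ) : ZMod 3) :=
    fun j => rfl
  rw [e, e, e, e, e]
  norm_num [show ((3 : Fin 5) : ℕ) = 3 from rfl, show ((4 : Fin 5) : ℕ) = 4 from rfl,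
    show ((2 : Fin 5) : ℕ) = 2 from rfl, show ((1 : Fin 5) : ℕ) = 1 from rfl]

lemma act5_eq (M t n : ℕ) : act5 M t n = rw5 M t 0 n + 3 * rw5 M t 1 n + 9 * rw5 M t 2 n +
    27 * rw5 M t 3 n + 81 * rw5 M t 4 n := rfl

lemma act5_lt (M t n : ℕ) : act5 M t n < 243 := by
  rw [act5_eq]
  have := rw5_lt M t 0 n
  have := rw5_lt M t 1 n
  have := rw5_lt M t 2 n
  have := rw5_lt M t 3 n
  have := rw5_lt M t 4 n
  omega

lemma dec_act5 (M t n : ℕ) : dec (act5 M t n) = mat5 M *ᵥ dec n + dec t := by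
  have h0 := rw5_lt M t 0 n
  have h1 := rw5_lt M t 1 n
  have h2 := rw5_lt M t 2 n
  have h3 := rw5_lt M t 3 n
  have h4 := rw5_lt M t 4 n
  funext i
  rw [← rw5_cast]
  fin_cases i
  · show dec (act5 M t n) 0 = ((rw5 M t 0 n : ℕ) : ZMod 3)
    rw [dec_0, act5_eq]
    congr 1
    omega
  · show dec (act5 M t n) 1 = ((rw5 M t 1 n : ℕ) : ZMod 3)
    rw [dec_1, act5_eq]
    congr 1
    omega
  · show dec (act5 M t n) 2 = ((rw5 M t 2 n : ℕ) : ZMod 3)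
    rw [dec_2, act5_eq]
    congr 1
    omega
  · show dec (act5 M t n) 3 = ((rw5 M t 3 n : ℕ) : ZMod 3)
    rw [dec_3, act5_eq]
    congr 1
    omega
  · show dec (act5 M t n) 4 = ((rw5 M t 4 n : ℕ) : ZMod 3)
    rw [dec_4, act5_eq]
    congr 1
    omega

/-- the matrices `M` and `N` are inverse to each other -/
noncomputable def mulOK (M N : ℕ) : Bool :=
  allL (fun e => force (act5 N 0 e) fun x => Nat.beq (act5 M 0 x) e) [1, 3, 9, 27, 81]

lemma dec_zero : dec 0 = 0 := by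
  funext i
  rw [dec_apply]
  simp

lemma mul_of_mulOK {M N : ℕ} (h : mulOK M N = true) : mat5 M * mat5 N = 1 := by
  rw [mulOK, allL_iff] at h
  have h1 : ∀ e ∈ [1, 3, 9, 27, 81], mat5 M *ᵥ (mat5 N *ᵥ dec e) = dec e := by
    intro e he
    have h2 := h e he
    rw [force_eq] at h2
    have h3 : act5 M 0 (act5 N 0 e) = e := Nat.eq_of_beq_eq_true h2
    have h4 := dec_act5 M 0 (act5 N 0 e)
    rw [h3, dec_act5, dec_zero, add_zero, add_zero] at h4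
    exact h4.symm
  have h5 : ∀ j : Fin 5, dec (3 ^ (j : ℕ)) = Pi.single j 1 := by
    decide +kernel
  have h6 : ∀ j : Fin 5, (mat5 M * mat5 N) *ᵥ (Pi.single j 1) = Pi.single j 1 := by
    intro j
    rw [← mulVec_mulVec, ← h5 j]
    apply h1
    fin_cases j <;> simp
  ext i j
  have h7 := congrFun (h6 j) i
  rw [Matrix.mulVec_single_one] at h7
  rw [Matrix.one_apply]
  have h8 : (mat5 M * mat5 N) i j = (Pi.single j (1 : ZMod 3) : Fin 5 → ZMod 3) i := h7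
  rw [h8, Pi.single_apply]

/-- the affine map with given codes -/
def affOf (M N t : ℕ) (h : mulOK M N = true) : Aff 5 where
  M := mat5 M
  N := mat5 N
  t := dec t
  MN := mul_of_mulOK h
  NM := by
    have := mul_of_mulOK h
    exact mul_eq_one_comm.mp this

lemma affOf_act {M N t : ℕ} (h : mulOK M N = true) (n : ℕ) :
    (affOf M N t h).act (dec n) = dec (act5 M t n) := by
  rw [dec_act5]
  rfl

/-- the map keeps the coordinates 0 and 1 -/
def Keep (g : Aff 5) : Prop := ∀ u : W5, g.act u 0 = u 0 ∧ g.act u 1 = u 1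

lemma keep_div {M n c : ℕ} (h : M % 59049 = 730) (hn : n * (3 * c) = 59049) :
    M / n % 3 = 730 / n % 3 := by
  have hpos : 0 < n := by
    rcases Nat.eq_zero_or_pos n with rfl | h'
    · simp at hn
    · exact h'
  have h1 : M = 730 + n * (3 * (c * (M / 59049))) := by
    have h2 := Nat.mod_add_div M 59049
    rw [h] at h2
    calc M = 730 + 59049 * (M / 59049) := h2.symm
      _ = 730 + n * (3 * (c * (M / 59049))) := by
        congr 1
        rw [← mul_assoc 3, ← mul_assoc, hn]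
  conv_lhs => rw [h1]
  rw [Nat.add_mul_div_left _ _ hpos, Nat.add_mul_mod_self_left]

lemma rw5_eq (M t i n : ℕ) : rw5 M t i n = ((M / 3 ^ (5 * i) % 3) * (n % 3) +
      (M / 3 ^ (5 * i + 1) % 3) * (n / 3 % 3) + (M / 3 ^ (5 * i + 2) % 3) * (n / 9 % 3) +
      (M / 3 ^ (5 * i + 3) % 3) * (n / 27 % 3) +
      (M / 3 ^ (5 * i + 4) % 3) * (n / 81 % 3) + t / 3 ^ i % 3) % 3 := rfl

lemma rw5_keep {M t : ℕ} (hM : M % 59049 = 730) (ht : t % 9 = 0) (n : ℕ) :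
    rw5 M t 0 n = n % 3 ∧ rw5 M t 1 n = n / 3 % 3 := by
  have t0 : t / 3 ^ 0 % 3 = 0 := by
    rw [pow_zero, Nat.div_one]
    omega
  have t1 : t / 3 ^ 1 % 3 = 0 := by
    rw [pow_one]
    omega
  have b0 : M / 3 ^ (5 * 0) % 3 = 1 := by
    rw [keep_div (c := 19683) hM (by norm_num)]
    norm_num
  have b1 : M / 3 ^ (5 * 0 + 1) % 3 = 0 := by
    rw [keep_div (c := 6561) hM (by norm_num)]
    norm_num
  have b2 : M / 3 ^ (5 * 0 + 2) % 3 = 0 := by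
    rw [keep_div (c := 2187) hM (by norm_num)]
    norm_num
  have b3 : M / 3 ^ (5 * 0 + 3) % 3 = 0 := by
    rw [keep_div (c := 729) hM (by norm_num)]
    norm_num
  have b4 : M / 3 ^ (5 * 0 + 4) % 3 = 0 := by
    rw [keep_div (c := 243) hM (by norm_num)]
    norm_num
  have c0 : M / 3 ^ (5 * 1) % 3 = 0 := by
    rw [keep_div (c := 81) hM (by norm_num)]
    norm_num
  have c1 : M / 3 ^ (5 * 1 + 1) % 3 = 1 := by
    rw [keep_div (c := 27) hM (by norm_num)]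
    norm_num
  have c2 : M / 3 ^ (5 * 1 + 2) % 3 = 0 := by
    rw [keep_div (c := 9) hM (by norm_num)]
    norm_num
  have c3 : M / 3 ^ (5 * 1 + 3) % 3 = 0 := by
    rw [keep_div (c := 3) hM (by norm_num)]
    norm_num
  have c4 : M / 3 ^ (5 * 1 + 4) % 3 = 0 := by
    rw [keep_div (c := 1) hM (by norm_num)]
    norm_num
  constructor
  · rw [rw5_eq, b0, b1, b2, b3, b4, t0]
    simp
  · rw [rw5_eq, c0, c1, c2, c3, c4, t1]
    simp

lemma dig_low {x y z u v : ℕ} (hx : x < 3) (hy : y < 3) :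
    (x + 3 * y + 9 * z + 27 * u + 81 * v) % 3 = x ∧
    (x + 3 * y + 9 * z + 27 * u + 81 * v) / 3 % 3 = y := by
  refine ⟨by omega, by omega⟩

lemma keep_affOf {M N t : ℕ} (h : mulOK M N = true) (hM : M % 59049 = 730) (ht : t % 9 = 0) :
    Keep (affOf M N t h) := by
  intro u
  have hu : u = dec (enc u) := (dec_enc u).symm
  rw [hu, affOf_act]
  obtain ⟨h0, h1⟩ := rw5_keep hM ht (enc u)
  have l0 := rw5_lt M t 0 (enc u)
  have l1 := rw5_lt M t 1 (enc u)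
  obtain ⟨d0, d1⟩ := dig_low (z := rw5 M t 2 (enc u)) (u := rw5 M t 3 (enc u))
    (v := rw5 M t 4 (enc u)) l0 l1
  rw [← act5_eq] at d0 d1
  rw [dec_0, dec_0, dec_1, dec_1, d0, d1, h0, h1]
  exact ⟨rfl, rfl⟩

/-! ### images under maps keeping the first coordinates -/

lemma Keep.inv {g : Aff 5} (h : Keep g) : Keep g.inv := by
  intro u
  have h1 := h (g.inv.act u)
  rw [g.act_inv_act] at h1
  exact ⟨h1.1.symm, h1.2.symm⟩

lemma cell_img {g : Aff 5} (h : Keep g) (D : Finset W5) (i j : ZMod 3) :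
    (cell (g.img D) i j).card = (cell D i j).card := by
  unfold cell Aff.img
  rw [Finset.filter_map, Finset.card_map]
  congr 1
  ext u
  simp only [Finset.mem_filter, Function.comp, Function.Embedding.coeFn_mk, (h u).1, (h u).2]

/-- composition -/
def Aff.comp (g h : Aff 5) : Aff 5 where
  M := g.M * h.M
  N := h.N * g.N
  t := g.M *ᵥ h.t + g.t
  MN := by
    rw [Matrix.mul_assoc, ← Matrix.mul_assoc h.M, h.MN, Matrix.one_mul, g.MN]
  NM := by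
    rw [Matrix.mul_assoc, ← Matrix.mul_assoc g.N, g.NM, Matrix.one_mul, h.NM]

lemma Aff.comp_act (g h : Aff 5) (u : W5) : (g.comp h).act u = g.act (h.act u) := by
  show (g.M * h.M) *ᵥ u + (g.M *ᵥ h.t + g.t) = g.M *ᵥ (h.M *ᵥ u + h.t) + g.t
  rw [mulVec_add, mulVec_mulVec, add_assoc]

lemma Aff.comp_img (g h : Aff 5) (D : Finset W5) : (g.comp h).img D = g.img (h.img D) := by
  ext u
  simp only [Aff.img, Finset.mem_map, Function.Embedding.coeFn_mk]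
  constructor
  · rintro ⟨v, hv, rfl⟩
    exact ⟨h.act v, ⟨v, hv, rfl⟩, (g.comp_act h v).symm⟩
  · rintro ⟨_, ⟨v, hv, rfl⟩, rfl⟩
    exact ⟨v, hv, g.comp_act h v⟩

/-- a shear -/
def shear (c : Fin 5) (w : W5) (hw : w c = 0) : Aff 5 where
  M := 1 + vecMulVec w (Pi.single c 1)
  N := 1 - vecMulVec w (Pi.single c 1)
  t := 0
  MN := by
    have h : vecMulVec w (Pi.single c 1) * vecMulVec w (Pi.single c (1 : ZMod 3)) = 0 := by
      rw [Matrix.vecMulVec_mul_vecMulVec]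
      simp [hw]
    rw [add_mul, mul_sub, mul_sub, one_mul, mul_one, one_mul, h]
    abel
  NM := by
    have h : vecMulVec w (Pi.single c 1) * vecMulVec w (Pi.single c (1 : ZMod 3)) = 0 := by
      rw [Matrix.vecMulVec_mul_vecMulVec]
      simp [hw]
    rw [sub_mul, mul_add, mul_add, one_mul, mul_one, one_mul, h]
    abel

lemma shear_act (c : Fin 5) (w : W5) (hw : w c = 0) (u : W5) :
    (shear c w hw).act u = u + u c • w := by
  show (1 + vecMulVec w (Pi.single c 1)) *ᵥ u + 0 = _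
  rw [add_zero, add_mulVec, one_mulVec]
  congr 1
  rw [vecMulVec_mulVec]
  simp

end Pool.Agent.H29.EGZ
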