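import Mathlib
import Pool.Agent.H29.EGZ.B.Enum

/-!
# Soundness of the enumerations of partners and of the final search
-/

set_option autoImplicit false

namespace Pool.Agent.H29.EGZ

open Finset

/-! ### shifted tables -/

lemma lookT_shift27 {t : ℕ} {X : List ℕ} (ht : IsTab t X) {n j : ℕ} (hn : n < 27) (hj : j < 81) :
    (lookT (t <<< 27) n).testBit j = true ↔ 27 ≤ j ∧ ∃ x ∈ X, T3 x n = j - 27 := by
  rw [testBit_lookT _ _ _ hj, Nat.testBit_shiftLeft, Bool.and_eq_true, decide_eq_true_iff]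
  by_cases h27 : 27 ≤ j
  · have e : 81 * n + j - 27 = 81 * n + (j - 27) := by omega
    rw [e, ht n hn (j - 27) (by omega)]
    constructor
    · rintro ⟨_, h⟩; exact ⟨h27, h⟩
    · rintro ⟨_, h⟩; exact ⟨by omega, h⟩
  · constructor
    · rintro ⟨h1, h2⟩
      exfalso
      obtain ⟨m, rfl⟩ : ∃ m, n = m + 1 := ⟨n - 1, by omega⟩
      have e : 81 * (m + 1) + j - 27 = 81 * m + (54 + j) := by omega
      rw [e, ht m (by omega) (54 + j) (by omega)] at h2
      obtain ⟨x, _, hx⟩ := h2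
      have := T3_lt x m
      omega
    · rintro ⟨h1, _⟩
      exact absurd h1 h27

lemma lookT_shift54 {t : ℕ} {X : List ℕ} (ht : IsTab t X) {n j : ℕ} (hn : n < 27) (hj : j < 81) :
    (lookT (t <<< 54) n).testBit j = true ↔ 54 ≤ j ∧ ∃ x ∈ X, T3 x n = j - 54 := by
  rw [testBit_lookT _ _ _ hj, Nat.testBit_shiftLeft, Bool.and_eq_true, decide_eq_true_iff]
  by_cases h54 : 54 ≤ j
  · have e : 81 * n + j - 54 = 81 * n + (j - 54) := by omega
    rw [e, ht n hn (j - 54) (by omega)]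
    constructor
    · rintro ⟨_, h⟩; exact ⟨h54, h⟩
    · rintro ⟨_, h⟩; exact ⟨by omega, h⟩
  · constructor
    · rintro ⟨h1, h2⟩
      exfalso
      obtain ⟨m, rfl⟩ : ∃ m, n = m + 1 := ⟨n - 1, by omega⟩
      have e : 81 * (m + 1) + j - 54 = 81 * m + (27 + j) := by omega
      rw [e, ht m (by omega) (27 + j) (by omega)] at h2
      obtain ⟨x, _, hx⟩ := h2
      have := T3_lt x m
      omega
    · rintro ⟨h1, _⟩
      exact absurd h1 h54

lemma lookT_or (a b n j : ℕ) (hj : j < 81) : (lookT (a ||| b) n).testBit j =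
    ((lookT a n).testBit j || (lookT b n).testBit j) := by
  rw [testBit_lookT _ _ _ hj, testBit_lookT _ _ _ hj, testBit_lookT _ _ _ hj, Nat.testBit_or]

lemma lookT_zero (n j : ℕ) : (lookT 0 n).testBit j = false := by
  show ((0 >>> (81 * n)) &&& 2417851639229258349412351).testBit j = false
  simp

/-! ### partner enumeration -/

/-- cap conditions within one cell -/
def CapSet (X : Finset ℕ) : Prop := ∀ p ∈ X, ∀ x ∈ X, p ≠ x → T3 p x ∉ X

/-- no line through one point of each set -/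
def NoLine (A B C : Finset ℕ) : Prop := ∀ a ∈ A, ∀ b ∈ B, T3 a b ∉ C

lemma testBit_full1 {v : ℕ} (h : v < 27) (h0 : v ≠ 0) : (134217726 : ℕ).testBit v = true := by
  have : ∀ v : Fin 27, (v : ℕ) ≠ 0 → (134217726 : ℕ).testBit (v : ℕ) = true := by decide +kernel
  exact this ⟨v, h⟩ h0

theorem t1_sound {t : ℕ} {A : List ℕ} {LM : List ℕ} (ht : IsTab t A)
    (h : chkT1 t LM = true) {X Z : Finset ℕ} (hX8 : X.card = 8) (hX27 : ∀ x ∈ X, x < 27)
    (h0 : 0 ∈ X) (hZ2 : 2 ≤ Z.card) (hZ27 : ∀ z ∈ Z, z < 27) (hcap : CapSet X)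
    (hline : NoLine A.toFinset X Z) :
    ∃ q ∈ X, ∃ m ∈ LM, ∀ j, m.testBit j = true ↔ ∃ x ∈ X, sub3 x q = j := by
  delta chkT1 at h
  rw [force_eq] at h
  have hRmem : ∀ y, y ∈ Z.image (fun z => 27 + z) ↔ ∃ z ∈ Z, 27 + z = y := by
    intro y
    simp
  obtain ⟨l, hl, hleaf⟩ := enum_sound (Z.image (fun z => 27 + z))
    (by
      intro ρ hρ
      obtain ⟨z, hz, rfl⟩ := (hRmem ρ).mp hρ
      have := hZ27 z hz
      omega)
    (by
      intro B hB
      show ge2 (B >>> 27) = true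
      apply ge2_of_bits (R := Z) _ hZ2
      intro z hz
      rw [Nat.testBit_shiftRight]
      exact hB _ ((hRmem _).mpr ⟨z, hz, rfl⟩))
    30 7 [0] _ h
    (by intro x hx; rw [List.mem_singleton] at hx; omega)
    (X.erase 0) (by rw [Finset.card_erase_of_mem h0, hX8])
    (fun v hv => hX27 v (Finset.mem_of_mem_erase hv))
    (by
      intro v hv
      show (134217726 ||| (diff 134217727 (look t 0)) <<< 27).testBit v = true
      rw [Nat.testBit_or, testBit_full1 (hX27 v (Finset.mem_of_mem_erase hv))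
        (Finset.ne_of_mem_erase hv)]
      rfl)
    (by
      intro y hy
      obtain ⟨z, hz, rfl⟩ := (hRmem y).mp hy
      show (134217726 ||| (diff 134217727 (look t 0)) <<< 27).testBit (27 + z) = true
      rw [Nat.testBit_or, Nat.testBit_shiftLeft, testBit_diff, testBit_full]
      have hz27 := hZ27 z hz
      have e : 27 + z - 27 = z := by omega
      have h2 : (look t 0).testBit z = false := by
        by_contra hb
        rw [Bool.not_eq_false] at hb
        obtain ⟨a, ha, haz⟩ := (testBit_look ht (by norm_num) z).mp hb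
        exact hline a (List.mem_toFinset.mpr ha) 0 h0 (haz ▸ hz)
      rw [e, h2]
      simp [hz27])
    (by
      intro p hp x hx hmem
      rw [List.mem_singleton] at hp
      subst hp
      exact hcap 0 h0 x (Finset.mem_of_mem_erase hx) (Finset.ne_of_mem_erase hx).symm
        (Finset.mem_of_mem_erase hmem))
    (by
      intro p hp x hx hne hmem
      exact hcap p (Finset.mem_of_mem_erase hp) x (Finset.mem_of_mem_erase hx) hne
        (Finset.mem_of_mem_erase hmem))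
    (by
      intro v hv y hy
      by_contra hb
      rw [Bool.not_eq_false] at hb
      have hvX := Finset.mem_of_mem_erase hv
      have hy81 : y < 81 := by
        rcases hy with hy | hy
        · have := hX27 y (Finset.mem_of_mem_erase hy)
          omega
        · obtain ⟨z, hz, rfl⟩ := (hRmem y).mp hy
          have := hZ27 z hz
          omega
      obtain ⟨h27, a, ha, hav⟩ := (lookT_shift27 ht (hX27 v hvX) hy81).mp hb
      rcases hy with hy | hy
      · have := hX27 y (Finset.mem_of_mem_erase hy)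
        omega
      · obtain ⟨z, hz, rfl⟩ := (hRmem y).mp hy
        apply hline a (List.mem_toFinset.mpr ha) v hvX
        rw [hav]
        have e : 27 + z - 27 = z := by omega
        rw [e]
        exact hz)
  have hlX : ∀ x, x ∈ l ↔ x ∈ X := by
    intro x
    rw [hl, Finset.mem_erase, List.mem_singleton]
    constructor
    · rintro (⟨_, h⟩ | rfl)
      · exact h
      · exact h0
    · intro hx
      by_cases hx0 : x = 0
      · exact Or.inr hx0
      · exact Or.inl ⟨hx0, hx⟩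
  have h2 : leafT1 LM l = anyL (fun p => force (maskSub l p) fun m => memb m LM) l := rfl
  rw [h2, anyL_iff] at hleaf
  obtain ⟨q, hq, hm⟩ := hleaf
  rw [force_eq, memb_iff] at hm
  refine ⟨q, (hlX q).mp hq, _, hm, fun j => ?_⟩
  rw [testBit_maskSub]
  constructor
  · rintro ⟨x, hx, h⟩; exact ⟨x, (hlX x).mp hx, h⟩
  · rintro ⟨x, hx, h⟩; exact ⟨x, (hlX x).mpr hx, h⟩

/-! ### the final search -/

/-- plain enumeration of the subsets with `k` elements of a mask which are caps -/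
lemma enum_plain {leaf : List ℕ → Bool} {k A : ℕ} (h : enum 0 g0 leaf 30 k [] A = true)
    {S : Finset ℕ} (hS : S.card = k) (hS27 : ∀ v ∈ S, v < 27) (hSA : Bits S A)
    (hcap : CapSet S) : ∃ l : List ℕ, (∀ x, x ∈ l ↔ x ∈ S) ∧ leaf l = true := by
  obtain ⟨l, hl, hleaf⟩ := enum_sound ∅ (by simp) (fun _ _ => rfl) 30 k [] A h (by simp) S hS hS27
    hSA (fun z hz => absurd hz (Finset.notMem_empty z)) (by simp) hcap
    (fun v _ y _ => lookT_zero v y)
  exact ⟨l, fun x => by rw [hl]; simp, hleaf⟩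

lemma bits_diff {S : Finset ℕ} {A B : ℕ} (hA : Bits S A) (hB : ∀ z ∈ S, B.testBit z = false) :
    Bits S (diff A B) := by
  intro z hz
  rw [testBit_diff, hA z hz, hB z hz]
  rfl

lemma bits_full {S : Finset ℕ} (hS : ∀ z ∈ S, z < 27) : Bits S 134217727 := by
  intro z hz
  rw [testBit_full, decide_eq_true_iff]
  exact hS z hz

lemma T3_comm (x y : ℕ) : T3 x y = T3 y x := by
  unfold T3
  have h1 : 6 - x % 3 - y % 3 = 6 - y % 3 - x % 3 := by omega
  have h2 : 6 - x / 3 % 3 - y / 3 % 3 = 6 - y / 3 % 3 - x / 3 % 3 := by omega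
  have h3 : 6 - x / 9 % 3 - y / 9 % 3 = 6 - y / 9 % 3 - x / 9 % 3 := by omega
  rw [h1, h2, h3]

/-- the table part: no line through `X`, `Y`, `S` -/
lemma orlook_false {t : ℕ} {X Y : List ℕ} (ht : IsTab t X) {S : Finset ℕ}
    {X' Y' : Finset ℕ} (hX : ∀ x, x ∈ X → x ∈ X') (hY : ∀ y, y ∈ Y ↔ y ∈ Y')
    (hY27 : ∀ y ∈ Y', y < 27) (hline : NoLine X' Y' S) :
    ∀ z ∈ S, (orlook t Y).testBit z = false := by
  intro z hz
  by_contra hb
  rw [Bool.not_eq_false] at hb
  obtain ⟨y, hy, x, hx, h⟩ := (testBit_orlook ht (fun y hy => hY27 y ((hY y).mp hy)) z).mp hb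
  exact hline x (hX x hx) y ((hY y).mp hy) (h ▸ hz)

lemma rows_false {X Y : List ℕ} {S X' Y' : Finset ℕ} (hX : ∀ x, x ∈ X ↔ x ∈ X')
    (hY : ∀ y, y ∈ Y ↔ y ∈ Y') (hX27 : ∀ x ∈ X', x < 27) (hY27 : ∀ y ∈ Y', y < 27)
    (hline : NoLine X' Y' S) : ∀ z ∈ S, (rows X Y).testBit z = false := by
  intro z hz
  by_contra hb
  rw [Bool.not_eq_false] at hb
  obtain ⟨x, hx, y, hy, h⟩ := (testBit_rows (fun x hx => hX27 x ((hX x).mp hx))
    (fun y hy => hY27 y ((hY y).mp hy)) z).mp hb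
  exact hline x ((hX x).mp hx) y ((hY y).mp hy) (h ▸ hz)

lemma and_of_rec {a b : Bool} (h : (Bool.rec false b a : Bool) = true) : a = true ∧ b = true := by
  cases a with
  | false => exact absurd h (by change ¬ (false = true); decide)
  | true => exact ⟨rfl, h⟩

lemma of_rec_true {a b : Bool} (h : (Bool.rec true b a : Bool) = true) (ha : a = true) :
    b = true := by
  subst ha
  exact h

/-- the nine cells -/
structure Nine (X0 X1 X2 Z20 Z02 Z22 Y11 Y12 Y21 : Finset ℕ) : Prop where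
  b0 : ∀ v ∈ X0, v < 27
  b1 : ∀ v ∈ X1, v < 27
  b2 : ∀ v ∈ X2, v < 27
  b20 : ∀ v ∈ Z20, v < 27
  b02 : ∀ v ∈ Z02, v < 27
  b22 : ∀ v ∈ Z22, v < 27
  b11 : ∀ v ∈ Y11, v < 27
  b12 : ∀ v ∈ Y12, v < 27
  b21 : ∀ v ∈ Y21, v < 27
  c20 : Z20.card = 2
  c02 : Z02.card = 2
  c22 : Z22.card = 2
  c11 : Y11.card = 5
  c12 : Y12.card = 5
  c21 : Y21.card = 5
  k20 : CapSet Z20
  k02 : CapSet Z02
  k22 : CapSet Z22
  k11 : CapSet Y11
  k12 : CapSet Y12
  k21 : CapSet Y21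
  n1 : NoLine X0 X1 Z20
  n2 : NoLine X1 X2 Z22
  n3 : NoLine X0 X2 Z02
  n4 : NoLine Z20 Z02 Y11
  n5 : NoLine X0 Z22 Y11
  n6 : NoLine Z20 Z22 Y21
  n7 : NoLine X1 Z02 Y21
  n8 : NoLine Z02 Z22 Y12
  n9 : NoLine X2 Z20 Y12
  n10 : NoLine X1 Y11 Y12
  n11 : NoLine X2 Y11 Y21
  n12 : NoLine X0 Y12 Y21

section T2

variable {F : List ℕ} {X0 X1 X2 : List ℕ} {t0 t1 t2 : ℕ}
  {sX0 sX1 sX2 sZ20 sZ02 sZ22 sY11 sY12 sY21 : Finset ℕ}

/-- the conclusion of the final search -/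
def Fin9 (F : List ℕ) (sX0 sX1 sX2 sZ20 sZ02 sZ22 sY11 sY12 sY21 : Finset ℕ) : Prop :=
  ∃ m ∈ F, ∀ k, m.testBit k = true ↔
    (∃ x ∈ sX0, 0 + 3 * 0 + 9 * x = k) ∨ (∃ x ∈ sX1, 1 + 3 * 0 + 9 * x = k) ∨
    (∃ x ∈ sX2, 0 + 3 * 1 + 9 * x = k) ∨ (∃ x ∈ sZ20, 2 + 3 * 0 + 9 * x = k) ∨
    (∃ x ∈ sZ02, 0 + 3 * 2 + 9 * x = k) ∨ (∃ x ∈ sZ22, 2 + 3 * 2 + 9 * x = k) ∨
    (∃ x ∈ sY11, 1 + 3 * 1 + 9 * x = k) ∨ (∃ x ∈ sY12, 1 + 3 * 2 + 9 * x = k) ∨
    (∃ x ∈ sY21, 2 + 3 * 1 + 9 * x = k)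

theorem body3_sound (hN : Nine sX0 sX1 sX2 sZ20 sZ02 sZ22 sY11 sY12 sY21)
    (h0 : ∀ x, x ∈ X0 ↔ x ∈ sX0) (h1 : ∀ x, x ∈ X1 ↔ x ∈ sX1) (h2 : ∀ x, x ∈ X2 ↔ x ∈ sX2)
    (ht0 : IsTab t0 X0) (ht1 : IsTab t1 X1) (ht2 : IsTab t2 X2)
    {Z20 Z02 Z22 : List ℕ} (h20 : ∀ x, x ∈ Z20 ↔ x ∈ sZ20) (h02 : ∀ x, x ∈ Z02 ↔ x ∈ sZ02)
    (h22 : ∀ x, x ∈ Z22 ↔ x ∈ sZ22) {a11 a12 a21 : ℕ} (hb11 : Bits sY11 a11)
    (hb12 : Bits sY12 a12) (hb21 : Bits sY21 a21)
    (h : body3 F X0 X1 X2 t0 t1 t2 Z20 Z02 Z22 a11 a12 a21 = true) :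
    Fin9 F sX0 sX1 sX2 sZ20 sZ02 sZ22 sY11 sY12 sY21 := by
  have e1 : body3 F X0 X1 X2 t0 t1 t2 Z20 Z02 Z22 a11 a12 a21 =
    force (Nat.lor (Nat.shiftLeft t1 27) (Nat.shiftLeft t2 54)) (fun T =>
  enum T g55 (fun Y11 => force (diff a12 (orlook t1 Y11)) fun b12 =>
    force (diff a21 (orlook t2 Y11)) fun b21 =>
    enum (Nat.shiftLeft t0 27) g5 (fun Y12 => force (diff b21 (orlook t0 Y12)) fun c21 =>
      enum 0 g0 (fun Y21 => force (fullMask X0 X1 X2 Z20 Z02 Z22 Y11 Y12 Y21) fun m => memb m F)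
        30 5 [] c21)
      30 5 [] (Nat.lor b12 (Nat.shiftLeft b21 27)))
    30 5 [] (Nat.lor a11 (Nat.lor (Nat.shiftLeft a12 27) (Nat.shiftLeft a21 54)))) := rfl
  rw [e1, force_eq] at h
  -- the cell (1,1)
  have hR : ∀ y, y ∈ sY12.image (fun z => 27 + z) ∪ sY21.image (fun z => 54 + z) ↔
      (∃ z ∈ sY12, 27 + z = y) ∨ (∃ z ∈ sY21, 54 + z = y) := by
    intro y
    simp
  obtain ⟨Y11, hY11, hleaf⟩ := enum_sound
    (sY12.image (fun z => 27 + z) ∪ sY21.image (fun z => 54 + z))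
    (by
      intro ρ hρ
      rcases (hR ρ).mp hρ with ⟨z, hz, rfl⟩ | ⟨z, hz, rfl⟩
      · have := hN.b12 z hz
        omega
      · have := hN.b21 z hz
        omega)
    (by
      intro B hB
      have e2 : g55 B = (Bool.rec false (ge5 (B >>> 54)) (ge5 ((B >>> 27) &&& 134217727)) : Bool) :=
        rfl
      rw [e2]
      have g1 : ge5 ((B >>> 27) &&& 134217727) = true := by
        apply ge5_of_bits (R := sY12) _ hN.c12.ge
        intro z hz
        rw [Nat.testBit_and, Nat.testBit_shiftRight, testBit_full,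
          hB _ ((hR _).mpr (Or.inl ⟨z, hz, rfl⟩))]
        simp [hN.b12 z hz]
      have g2 : ge5 (B >>> 54) = true := by
        apply ge5_of_bits (R := sY21) _ hN.c21.ge
        intro z hz
        rw [Nat.testBit_shiftRight]
        exact hB _ ((hR _).mpr (Or.inr ⟨z, hz, rfl⟩))
      rw [g1, g2])
    30 5 [] _ h (by simp) sY11 hN.c11 hN.b11
    (by
      intro v hv
      show (a11 ||| _).testBit v = true
      rw [Nat.testBit_or, hb11 v hv]
      rfl)
    (by
      intro y hy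
      show (a11 ||| (a12 <<< 27 ||| a21 <<< 54)).testBit y = true
      rw [Nat.testBit_or, Nat.testBit_or, Nat.testBit_shiftLeft, Nat.testBit_shiftLeft]
      rcases (hR y).mp hy with ⟨z, hz, rfl⟩ | ⟨z, hz, rfl⟩
      · have e : 27 + z - 27 = z := by omega
        rw [e, hb12 z hz]
        simp
      · have e : 54 + z - 54 = z := by omega
        rw [e, hb21 z hz]
        simp)
    (by simp) hN.k11
    (by
      intro v hv y hy
      have hy81 : y < 81 := by
        rcases hy with hy | hy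
        · have := hN.b11 y hy
          omega
        · rcases (hR y).mp hy with ⟨z, hz, rfl⟩ | ⟨z, hz, rfl⟩
          · have := hN.b12 z hz
            omega
          · have := hN.b21 z hz
            omega
      show (lookT (t1 <<< 27 ||| t2 <<< 54) v).testBit y = false
      rw [lookT_or _ _ _ _ hy81]
      rw [Bool.or_eq_false_iff]
      constructor
      · by_contra hb
        rw [Bool.not_eq_false] at hb
        obtain ⟨h27, x, hx, hxv⟩ := (lookT_shift27 ht1 (hN.b11 v hv) hy81).mp hb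
        have hx' := (h1 x).mp hx
        rcases hy with hy | hy
        · have := hN.b11 y hy
          omega
        · rcases (hR y).mp hy with ⟨z, hz, rfl⟩ | ⟨z, hz, rfl⟩
          · apply hN.n10 x hx' v hv
            rw [hxv]
            have e : 27 + z - 27 = z := by omega
            rw [e]
            exact hz
          · have := T3_lt x v
            omega
      · by_contra hb
        rw [Bool.not_eq_false] at hb
        obtain ⟨h54, x, hx, hxv⟩ := (lookT_shift54 ht2 (hN.b11 v hv) hy81).mp hb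
        have hx' := (h2 x).mp hx
        rcases hy with hy | hy
        · have := hN.b11 y hy
          omega
        · rcases (hR y).mp hy with ⟨z, hz, rfl⟩ | ⟨z, hz, rfl⟩
          · have := hN.b12 z hz
            omega
          · apply hN.n11 x hx' v hv
            rw [hxv]
            have e : 54 + z - 54 = z := by omega
            rw [e]
            exact hz)
  have hY11' : ∀ x, x ∈ Y11 ↔ x ∈ sY11 := by
    intro x
    rw [hY11]
    simp
  rw [force_eq, force_eq] at hleaf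
  have hb12' : Bits sY12 (diff a12 (orlook t1 Y11)) :=
    bits_diff hb12 (orlook_false ht1 (fun x hx => (h1 x).mp hx) hY11' hN.b11 hN.n10)
  have hb21' : Bits sY21 (diff a21 (orlook t2 Y11)) :=
    bits_diff hb21 (orlook_false ht2 (fun x hx => (h2 x).mp hx) hY11' hN.b11 hN.n11)
  -- the cell (1,2)
  have hR2 : ∀ y, y ∈ sY21.image (fun z => 27 + z) ↔ (∃ z ∈ sY21, 27 + z = y) := by
    intro y
    simp
  obtain ⟨Y12, hY12, hleaf2⟩ := enum_sound (sY21.image (fun z => 27 + z))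
    (by
      intro ρ hρ
      obtain ⟨z, hz, rfl⟩ := (hR2 ρ).mp hρ
      have := hN.b21 z hz
      omega)
    (by
      intro B hB
      show ge5 (B >>> 27) = true
      apply ge5_of_bits (R := sY21) _ hN.c21.ge
      intro z hz
      rw [Nat.testBit_shiftRight]
      exact hB _ ((hR2 _).mpr ⟨z, hz, rfl⟩))
    30 5 [] _ hleaf (by simp) sY12 hN.c12 hN.b12
    (by
      intro v hv
      show (diff a12 (orlook t1 Y11) ||| _).testBit v = true
      rw [Nat.testBit_or, hb12' v hv]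
      rfl)
    (by
      intro y hy
      show (diff a12 (orlook t1 Y11) ||| (diff a21 (orlook t2 Y11)) <<< 27).testBit y = true
      rw [Nat.testBit_or, Nat.testBit_shiftLeft]
      obtain ⟨z, hz, rfl⟩ := (hR2 y).mp hy
      have e : 27 + z - 27 = z := by omega
      rw [e, hb21' z hz]
      simp)
    (by simp) hN.k12
    (by
      intro v hv y hy
      have hy81 : y < 81 := by
        rcases hy with hy | hy
        · have := hN.b12 y hy
          omega
        · obtain ⟨z, hz, rfl⟩ := (hR2 y).mp hy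
          have := hN.b21 z hz
          omega
      by_contra hb
      rw [Bool.not_eq_false] at hb
      obtain ⟨h27, x, hx, hxv⟩ := (lookT_shift27 ht0 (hN.b12 v hv) hy81).mp hb
      have hx' := (h0 x).mp hx
      rcases hy with hy | hy
      · have := hN.b12 y hy
        omega
      · obtain ⟨z, hz, rfl⟩ := (hR2 y).mp hy
        apply hN.n12 x hx' v hv
        rw [hxv]
        have e : 27 + z - 27 = z := by omega
        rw [e]
        exact hz)
  have hY12' : ∀ x, x ∈ Y12 ↔ x ∈ sY12 := by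
    intro x
    rw [hY12]
    simp
  rw [force_eq] at hleaf2
  have hc21 : Bits sY21 (diff (diff a21 (orlook t2 Y11)) (orlook t0 Y12)) :=
    bits_diff hb21' (orlook_false ht0 (fun x hx => (h0 x).mp hx) hY12' hN.b12 hN.n12)
  obtain ⟨Y21, hY21', hleaf3⟩ := enum_plain hleaf2 hN.c21 hN.b21 hc21 hN.k21
  rw [force_eq, memb_iff] at hleaf3
  refine ⟨_, hleaf3, fun k => ?_⟩
  have e2 : fullMask X0 X1 X2 Z20 Z02 Z22 Y11 Y12 Y21 = cm 0 0 X0 ||| (cm 1 0 X1 ||| (cm 0 1 X2 |||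
      (cm 2 0 Z20 ||| (cm 0 2 Z02 ||| (cm 2 2 Z22 ||| (cm 1 1 Y11 ||| (cm 1 2 Y12 |||
      cm 2 1 Y21))))))) := rfl
  rw [e2]
  simp only [Nat.testBit_or, Bool.or_eq_true, testBit_cm, h0, h1, h2, h20, h02, h22, hY11', hY12',
    hY21']

theorem body1_sound (hN : Nine sX0 sX1 sX2 sZ20 sZ02 sZ22 sY11 sY12 sY21)
    (h0 : ∀ x, x ∈ X0 ↔ x ∈ sX0) (h1 : ∀ x, x ∈ X1 ↔ x ∈ sX1) (h2 : ∀ x, x ∈ X2 ↔ x ∈ sX2)
    (ht0 : IsTab t0 X0) (ht1 : IsTab t1 X1) (ht2 : IsTab t2 X2)
    {r20 r22 : ℕ} (hr20 : Bits sZ20 r20) (hr22 : Bits sZ22 r22)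
    (h : body1 F X0 X1 X2 t0 t1 t2 r20 r22 = true) :
    Fin9 F sX0 sX1 sX2 sZ20 sZ02 sZ22 sY11 sY12 sY21 := by
  have e1 : body1 F X0 X1 X2 t0 t1 t2 r20 r22 =
      force (diff 134217727 (orlook t0 X2)) (fun r02 =>
        enum 0 g0 (fun Z20 => enum 0 g0 (fun Z02 => enum 0 g0 (fun Z22 =>
          body2 F X0 X1 X2 t0 t1 t2 Z20 Z02 Z22) 30 2 [] r22) 30 2 [] r02) 30 2 [] r20) := rfl
  rw [e1, force_eq] at h
  have hr02 : Bits sZ02 (diff 134217727 (orlook t0 X2)) :=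
    bits_diff (bits_full hN.b02) (orlook_false ht0 (fun x hx => (h0 x).mp hx) h2 hN.b2 hN.n3)
  obtain ⟨Z20, h20, hl1⟩ := enum_plain h hN.c20 hN.b20 hr20 hN.k20
  obtain ⟨Z02, h02, hl2⟩ := enum_plain hl1 hN.c02 hN.b02 hr02 hN.k02
  obtain ⟨Z22, h22, hl3⟩ := enum_plain hl2 hN.c22 hN.b22 hr22 hN.k22
  have e2 : body2 F X0 X1 X2 t0 t1 t2 Z20 Z02 Z22 =
    force (diff (diff 134217727 (rows Z20 Z02)) (orlook t0 Z22)) (fun a11 =>
    Bool.rec true (
    force (diff (diff 134217727 (rows Z20 Z22)) (orlook t1 Z02)) fun a21 =>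
    Bool.rec true (
    force (diff (diff 134217727 (rows Z02 Z22)) (orlook t2 Z20)) fun a12 =>
    Bool.rec true (body3 F X0 X1 X2 t0 t1 t2 Z20 Z02 Z22 a11 a12 a21) (ge5 a12)) (ge5 a21))
    (ge5 a11)) := rfl
  rw [e2, force_eq] at hl3
  have hb11 : Bits sY11 (diff (diff 134217727 (rows Z20 Z02)) (orlook t0 Z22)) :=
    bits_diff (bits_diff (bits_full hN.b11) (rows_false h20 h02 hN.b20 hN.b02 hN.n4))
      (orlook_false ht0 (fun x hx => (h0 x).mp hx) h22 hN.b22 hN.n5)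
  have hb21 : Bits sY21 (diff (diff 134217727 (rows Z20 Z22)) (orlook t1 Z02)) :=
    bits_diff (bits_diff (bits_full hN.b21) (rows_false h20 h22 hN.b20 hN.b22 hN.n6))
      (orlook_false ht1 (fun x hx => (h1 x).mp hx) h02 hN.b02 hN.n7)
  have hb12 : Bits sY12 (diff (diff 134217727 (rows Z02 Z22)) (orlook t2 Z20)) :=
    bits_diff (bits_diff (bits_full hN.b12) (rows_false h02 h22 hN.b02 hN.b22 hN.n8))
      (orlook_false ht2 (fun x hx => (h2 x).mp hx) h20 hN.b20 hN.n9)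
  have hl4 := of_rec_true hl3 (ge5_of_bits hb11 hN.c11.ge)
  rw [force_eq] at hl4
  have hl5 := of_rec_true hl4 (ge5_of_bits hb21 hN.c21.ge)
  rw [force_eq] at hl5
  have hl6 := of_rec_true hl5 (ge5_of_bits hb12 hN.c12.ge)
  exact body3_sound hN h0 h1 h2 ht0 ht1 ht2 h20 h02 h22 hb11 hb12 hb21 hl6

theorem t2_sound (hN : Nine sX0 sX1 sX2 sZ20 sZ02 sZ22 sY11 sY12 sY21)
    {R L : List (List ℕ × ℕ)}
    (h0 : ∀ x, x ∈ X0 ↔ x ∈ sX0) (ht0 : IsTab t0 X0)
    (hR : ∀ p ∈ R, IsTab p.2 p.1) (hL : ∀ p ∈ L, IsTab p.2 p.1)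
    (h1 : ∃ p ∈ R, ∀ x, x ∈ p.1 ↔ x ∈ sX1) (h2 : ∃ p ∈ L, ∀ x, x ∈ p.1 ↔ x ∈ sX2)
    (h : chkT2 F X0 t0 R L = true) :
    Fin9 F sX0 sX1 sX2 sZ20 sZ02 sZ22 sY11 sY12 sY21 := by
  obtain ⟨p, hp, hp1⟩ := h1
  obtain ⟨q, hq, hq1⟩ := h2
  have e1 : chkT2 F X0 t0 R L = allL (chkX1 F X0 L t0) R := rfl
  rw [e1, allL_iff] at h
  have h3 := h p hp
  have e2 : chkX1 F X0 L t0 p =
      force (diff 134217727 (orlook t0 p.1)) (fun r20 => allL (fun X2 =>
        force (diff 134217727 (orlook p.2 X2.1)) fun r22 =>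
          Bool.rec true (body1 F X0 p.1 X2.1 t0 p.2 X2.2 r20 r22) (ge2 r22)) L) := rfl
  rw [e2, force_eq, allL_iff] at h3
  have h4 := h3 q hq
  rw [force_eq] at h4
  have hr20 : Bits sZ20 (diff 134217727 (orlook t0 p.1)) :=
    bits_diff (bits_full hN.b20) (orlook_false ht0 (fun x hx => (h0 x).mp hx) hp1 hN.b1 hN.n1)
  have hr22 : Bits sZ22 (diff 134217727 (orlook p.2 q.1)) :=
    bits_diff (bits_full hN.b22) (orlook_false (hR p hp) (fun x hx => (hp1 x).mp hx) hq1 hN.b2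
      hN.n2)
  have h5 := of_rec_true h4 (ge2_of_bits hr22 hN.c22.ge)
  exact body1_sound hN h0 hp1 hq1 ht0 (hR p hp) (hL q hq) hr20 hr22 h5

end T2

end Pool.Agent.H29.EGZ
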