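import Mathlib
import Pool.Agent.H29.EGZ.B.Codes
import Pool.Agent.H29.EGZ.B.Sound

/-!
# Images of cells, certificates
-/

set_option autoImplicit false

namespace Pool.Agent.H29.EGZ

open Finset Matrix

lemma exists_code (u : W5) {i j : ℕ} (hi : i < 3) (hj : j < 3) (h0 : u 0 = (i : ZMod 3))
    (h1 : u 1 = (j : ZMod 3)) : ∃ v < 27, u = dec (i + 3 * j + 9 * v) := by
  have e0 : (u 0).val = i := by rw [h0]; exact val_cast3 hi
  have e1 : (u 1).val = j := by rw [h1]; exact val_cast3 hj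
  have h2 := val_lt3 (u 2)
  have h3 := val_lt3 (u 3)
  have h4 := val_lt3 (u 4)
  have henc : i + 3 * j + 9 * ((u 2).val + 3 * (u 3).val + 9 * (u 4).val) = enc u := by
    unfold enc
    omega
  refine ⟨(u 2).val + 3 * (u 3).val + 9 * (u 4).val, by omega, ?_⟩
  rw [henc, dec_enc]

lemma dec_code_0 {i j v : ℕ} (hi : i < 3) (hj : j < 3) (hv : v < 27) :
    dec (i + 3 * j + 9 * v) 0 = (i : ZMod 3) := by
  rw [dec_0, (dig5 hi hj hv).1]

lemma dec_code_1 {i j v : ℕ} (hi : i < 3) (hj : j < 3) (hv : v < 27) :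
    dec (i + 3 * j + 9 * v) 1 = (j : ZMod 3) := by
  rw [dec_1, (dig5 hi hj hv).2.1]

theorem cs_img {g : Aff 5} (hk : Keep g) {D : Finset W5} {i j : ℕ} (hi : i < 3) (hj : j < 3)
    (f : ℕ → ℕ)
    (hf : ∀ v ∈ cs D i j, f v < 27 ∧
      g.act (dec (i + 3 * j + 9 * v)) = dec (i + 3 * j + 9 * f v)) :
    cs (g.img D) i j = (cs D i j).image f := by
  ext w
  rw [Finset.mem_image]
  constructor
  · intro hw
    obtain ⟨hw27, hwD⟩ := mem_cs.mp hw
    rw [g.mem_img] at hwD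
    have hinv := hk.inv (dec (i + 3 * j + 9 * w))
    rw [dec_code_0 hi hj hw27, dec_code_1 hi hj hw27] at hinv
    obtain ⟨v, hv, hu⟩ := exists_code (g.inv.act (dec (i + 3 * j + 9 * w))) hi hj hinv.1 hinv.2
    rw [hu] at hwD
    have hvc : v ∈ cs D i j := mem_cs.mpr ⟨hv, hwD⟩
    refine ⟨v, hvc, ?_⟩
    obtain ⟨hf27, hfv⟩ := hf v hvc
    rw [← hu, g.act_inv_act] at hfv
    have := dec_inj (code_lt hi hj hw27) (code_lt hi hj hf27) hfv
    omega
  · rintro ⟨v, hv, rfl⟩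
    obtain ⟨hf27, hfv⟩ := hf v hv
    rw [mem_cs]
    refine ⟨hf27, ?_⟩
    rw [← hfv, g.act_mem_img]
    exact (mem_cs.mp hv).2

/-! ### the layout -/

/-- a 45-cap in standard layout -/
structure Lay (D : Finset W5) : Prop where
  cap : IsCap D
  card : D.card = 45
  cells : ∀ i j : ZMod 3, (cell D i j).card + 3 * small i j = 8

lemma Lay.img {D : Finset W5} (h : Lay D) {g : Aff 5} (hg : Keep g) : Lay (g.img D) where
  cap := g.isCap_img h.cap
  card := by rw [g.card_img, h.card]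
  cells := fun i j => by rw [cell_img hg, h.cells]

lemma Lay.c8 {D : Finset W5} (h : Lay D) : (cs D 0 0).card = 8 ∧ (cs D 1 0).card = 8 ∧
    (cs D 0 1).card = 8 := by
  refine ⟨?_, ?_, ?_⟩
  · rw [card_cs D (by norm_num) (by norm_num)]
    have h1 := h.cells ((0 : ℕ) : ZMod 3) ((0 : ℕ) : ZMod 3)
    have h2 : small ((0 : ℕ) : ZMod 3) ((0 : ℕ) : ZMod 3) = 0 := by decide
    omega
  · rw [card_cs D (by norm_num) (by norm_num)]
    have h1 := h.cells ((1 : ℕ) : ZMod 3) ((0 : ℕ) : ZMod 3)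
    have h2 : small ((1 : ℕ) : ZMod 3) ((0 : ℕ) : ZMod 3) = 0 := by decide
    omega
  · rw [card_cs D (by norm_num) (by norm_num)]
    have h1 := h.cells ((0 : ℕ) : ZMod 3) ((1 : ℕ) : ZMod 3)
    have h2 : small ((0 : ℕ) : ZMod 3) ((1 : ℕ) : ZMod 3) = 0 := by decide
    omega

lemma Lay.c2 {D : Finset W5} (h : Lay D) : (cs D 2 0).card = 2 ∧ (cs D 0 2).card = 2 ∧
    (cs D 2 2).card = 2 := by
  refine ⟨?_, ?_, ?_⟩
  · rw [card_cs D (by norm_num) (by norm_num)]
    have h1 := h.cells ((2 : ℕ) : ZMod 3) ((0 : ℕ) : ZMod 3)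
    have h2 : small ((2 : ℕ) : ZMod 3) ((0 : ℕ) : ZMod 3) = 2 := by decide
    omega
  · rw [card_cs D (by norm_num) (by norm_num)]
    have h1 := h.cells ((0 : ℕ) : ZMod 3) ((2 : ℕ) : ZMod 3)
    have h2 : small ((0 : ℕ) : ZMod 3) ((2 : ℕ) : ZMod 3) = 2 := by decide
    omega
  · rw [card_cs D (by norm_num) (by norm_num)]
    have h1 := h.cells ((2 : ℕ) : ZMod 3) ((2 : ℕ) : ZMod 3)
    have h2 : small ((2 : ℕ) : ZMod 3) ((2 : ℕ) : ZMod 3) = 2 := by decide
    omega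

lemma Lay.c5 {D : Finset W5} (h : Lay D) : (cs D 1 1).card = 5 ∧ (cs D 1 2).card = 5 ∧
    (cs D 2 1).card = 5 := by
  refine ⟨?_, ?_, ?_⟩
  · rw [card_cs D (by norm_num) (by norm_num)]
    have h1 := h.cells ((1 : ℕ) : ZMod 3) ((1 : ℕ) : ZMod 3)
    have h2 : small ((1 : ℕ) : ZMod 3) ((1 : ℕ) : ZMod 3) = 1 := by decide
    omega
  · rw [card_cs D (by norm_num) (by norm_num)]
    have h1 := h.cells ((1 : ℕ) : ZMod 3) ((2 : ℕ) : ZMod 3)
    have h2 : small ((1 : ℕ) : ZMod 3) ((2 : ℕ) : ZMod 3) = 1 := by decide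
    omega
  · rw [card_cs D (by norm_num) (by norm_num)]
    have h1 := h.cells ((2 : ℕ) : ZMod 3) ((1 : ℕ) : ZMod 3)
    have h2 : small ((2 : ℕ) : ZMod 3) ((1 : ℕ) : ZMod 3) = 1 := by decide
    omega

lemma capSet_cs {D : Finset W5} (h : IsCap D) {i j : ℕ} (hi : i < 3) (hj : j < 3) :
    CapSet (cs D i j) := by
  intro p hp x hx hne
  exact cap_cs h hi hi hi hj hj hj (by omega) (by omega) hp hx (fun h' => hne h'.2.2)

lemma noLine_cs {D : Finset W5} (h : IsCap D) {i1 j1 i2 j2 i3 j3 : ℕ}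
    (hi1 : i1 < 3) (hi2 : i2 < 3) (hi3 : i3 < 3) (hj1 : j1 < 3) (hj2 : j2 < 3) (hj3 : j3 < 3)
    (hi : (i1 + i2 + i3) % 3 = 0) (hj : (j1 + j2 + j3) % 3 = 0) (hne : ¬ (i1 = i2 ∧ j1 = j2)) :
    NoLine (cs D i1 j1) (cs D i2 j2) (cs D i3 j3) := by
  intro a ha b hb
  exact cap_cs h hi1 hi2 hi3 hj1 hj2 hj3 hi hj ha hb (fun h' => hne ⟨h'.1, h'.2.1⟩)

lemma Lay.nine {D : Finset W5} (h : Lay D) : Nine (cs D 0 0) (cs D 1 0) (cs D 0 1) (cs D 2 0)
    (cs D 0 2) (cs D 2 2) (cs D 1 1) (cs D 1 2) (cs D 2 1) where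
  b0 := fun _ hv => cs_lt hv
  b1 := fun _ hv => cs_lt hv
  b2 := fun _ hv => cs_lt hv
  b20 := fun _ hv => cs_lt hv
  b02 := fun _ hv => cs_lt hv
  b22 := fun _ hv => cs_lt hv
  b11 := fun _ hv => cs_lt hv
  b12 := fun _ hv => cs_lt hv
  b21 := fun _ hv => cs_lt hv
  c20 := h.c2.1
  c02 := h.c2.2.1
  c22 := h.c2.2.2
  c11 := h.c5.1
  c12 := h.c5.2.1
  c21 := h.c5.2.2
  k20 := capSet_cs h.cap (by norm_num) (by norm_num)
  k02 := capSet_cs h.cap (by norm_num) (by norm_num)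
  k22 := capSet_cs h.cap (by norm_num) (by norm_num)
  k11 := capSet_cs h.cap (by norm_num) (by norm_num)
  k12 := capSet_cs h.cap (by norm_num) (by norm_num)
  k21 := capSet_cs h.cap (by norm_num) (by norm_num)
  n1 := noLine_cs h.cap (by norm_num) (by norm_num) (by norm_num) (by norm_num) (by norm_num)
    (by norm_num) (by norm_num) (by norm_num) (by norm_num)
  n2 := noLine_cs h.cap (by norm_num) (by norm_num) (by norm_num) (by norm_num) (by norm_num)
    (by norm_num) (by norm_num) (by norm_num) (by norm_num)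
  n3 := noLine_cs h.cap (by norm_num) (by norm_num) (by norm_num) (by norm_num) (by norm_num)
    (by norm_num) (by norm_num) (by norm_num) (by norm_num)
  n4 := noLine_cs h.cap (by norm_num) (by norm_num) (by norm_num) (by norm_num) (by norm_num)
    (by norm_num) (by norm_num) (by norm_num) (by norm_num)
  n5 := noLine_cs h.cap (by norm_num) (by norm_num) (by norm_num) (by norm_num) (by norm_num)
    (by norm_num) (by norm_num) (by norm_num) (by norm_num)
  n6 := noLine_cs h.cap (by norm_num) (by norm_num) (by norm_num) (by norm_num) (by norm_num)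
    (by norm_num) (by norm_num) (by norm_num) (by norm_num)
  n7 := noLine_cs h.cap (by norm_num) (by norm_num) (by norm_num) (by norm_num) (by norm_num)
    (by norm_num) (by norm_num) (by norm_num) (by norm_num)
  n8 := noLine_cs h.cap (by norm_num) (by norm_num) (by norm_num) (by norm_num) (by norm_num)
    (by norm_num) (by norm_num) (by norm_num) (by norm_num)
  n9 := noLine_cs h.cap (by norm_num) (by norm_num) (by norm_num) (by norm_num) (by norm_num)
    (by norm_num) (by norm_num) (by norm_num) (by norm_num)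
  n10 := noLine_cs h.cap (by norm_num) (by norm_num) (by norm_num) (by norm_num) (by norm_num)
    (by norm_num) (by norm_num) (by norm_num) (by norm_num)
  n11 := noLine_cs h.cap (by norm_num) (by norm_num) (by norm_num) (by norm_num) (by norm_num)
    (by norm_num) (by norm_num) (by norm_num) (by norm_num)
  n12 := noLine_cs h.cap (by norm_num) (by norm_num) (by norm_num) (by norm_num) (by norm_num)
    (by norm_num) (by norm_num) (by norm_num) (by norm_num)

/-! ### shears in codes -/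

lemma sub3_dig (x y : ℕ) : sub3 x y % 3 = (x % 3 + 3 - y % 3) % 3 ∧
    sub3 x y / 3 % 3 = (x / 3 % 3 + 3 - y / 3 % 3) % 3 ∧
    sub3 x y / 9 % 3 = (x / 9 % 3 + 3 - y / 9 % 3) % 3 :=
  dig3 (Nat.mod_lt _ (by norm_num)) (Nat.mod_lt _ (by norm_num)) (Nat.mod_lt _ (by norm_num))

lemma sub3_lt (x y : ℕ) : sub3 x y < 27 := by
  unfold sub3
  omega

lemma cast_sub3 {x y : ℕ} (hy : y < 3) : (((x + 3 - y) % 3 : ℕ) : ZMod 3) = (x : ZMod 3) - y := by
  rw [ZMod.natCast_mod, Nat.cast_sub (by omega)]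
  push_cast
  have : (3 : ZMod 3) = 0 := rfl
  rw [this, add_zero]

lemma dec_sub {i j v q : ℕ} (hi : i < 3) (hj : j < 3) (hv : v < 27) (hq : q < 27) :
    dec (i + 3 * j + 9 * v) - dec (9 * q) = dec (i + 3 * j + 9 * sub3 v q) := by
  obtain ⟨a0, a1, a2, a3, a4⟩ := dig5 hi hj hv
  have hq' : dec (9 * q) = dec (0 + 3 * 0 + 9 * q) := by norm_num
  obtain ⟨b0, b1, b2, b3, b4⟩ := dig5 (i := 0) (j := 0) (by norm_num) (by norm_num) hq
  obtain ⟨c0, c1, c2, c3, c4⟩ := dig5 hi hj (sub3_lt v q)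
  obtain ⟨s0, s1, s2⟩ := sub3_dig v q
  rw [hq']
  funext k
  rw [Pi.sub_apply]
  fin_cases k
  · show dec _ 0 - dec _ 0 = dec _ 0
    rw [dec_0, dec_0, dec_0, a0, b0, c0]
    simp
  · show dec _ 1 - dec _ 1 = dec _ 1
    rw [dec_1, dec_1, dec_1, a1, b1, c1]
    simp
  · show dec _ 2 - dec _ 2 = dec _ 2
    rw [dec_2, dec_2, dec_2, a2, b2, c2, s0, cast_sub3 (Nat.mod_lt _ (by norm_num))]
  · show dec _ 3 - dec _ 3 = dec _ 3
    rw [dec_3, dec_3, dec_3, a3, b3, c3, s1, cast_sub3 (Nat.mod_lt _ (by norm_num))]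
  · show dec _ 4 - dec _ 4 = dec _ 4
    rw [dec_4, dec_4, dec_4, a4, b4, c4, s2, cast_sub3 (Nat.mod_lt _ (by norm_num))]

lemma dec_nine_0 {q : ℕ} (hq : q < 27) : dec (9 * q) 0 = 0 := by
  have h := dec_code_0 (i := 0) (j := 0) (by norm_num) (by norm_num) hq
  simpa using h

lemma dec_nine_1 {q : ℕ} (hq : q < 27) : dec (9 * q) 1 = 0 := by
  have h := dec_code_1 (i := 0) (j := 0) (by norm_num) (by norm_num) hq
  simpa using h

/-- the shear moving the cells `(1, j)` by `-q` -/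
def tr0 (q : ℕ) (hq : q < 27) : Aff 5 :=
  shear 0 (-(dec (9 * q))) (by rw [Pi.neg_apply, dec_nine_0 hq, neg_zero])

/-- the shear moving the cells `(i, 1)` by `-q` -/
def tr1 (q : ℕ) (hq : q < 27) : Aff 5 :=
  shear 1 (-(dec (9 * q))) (by rw [Pi.neg_apply, dec_nine_1 hq, neg_zero])

lemma keep_tr0 {q : ℕ} (hq : q < 27) : Keep (tr0 q hq) := by
  intro u
  rw [tr0, shear_act, Pi.add_apply, Pi.add_apply, Pi.smul_apply, Pi.smul_apply, Pi.neg_apply,
    Pi.neg_apply, dec_nine_0 hq, dec_nine_1 hq]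
  simp

lemma keep_tr1 {q : ℕ} (hq : q < 27) : Keep (tr1 q hq) := by
  intro u
  rw [tr1, shear_act, Pi.add_apply, Pi.add_apply, Pi.smul_apply, Pi.smul_apply, Pi.neg_apply,
    Pi.neg_apply, dec_nine_0 hq, dec_nine_1 hq]
  simp

lemma cs_tr0_0 {q : ℕ} (hq : q < 27) (D : Finset W5) {j : ℕ} (hj : j < 3) :
    cs ((tr0 q hq).img D) 0 j = cs D 0 j := by
  rw [cs_img (keep_tr0 hq) (by norm_num) hj (fun v => v), Finset.image_id']
  intro v hv
  refine ⟨cs_lt hv, ?_⟩
  rw [tr0, shear_act, dec_code_0 (by norm_num) hj (cs_lt hv)]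
  simp

lemma cs_tr0_1 {q : ℕ} (hq : q < 27) (D : Finset W5) {j : ℕ} (hj : j < 3) :
    cs ((tr0 q hq).img D) 1 j = (cs D 1 j).image (fun v => sub3 v q) := by
  refine cs_img (keep_tr0 hq) (by norm_num) hj (fun v => sub3 v q) ?_
  intro v hv
  refine ⟨sub3_lt _ _, ?_⟩
  rw [tr0, shear_act, dec_code_0 (by norm_num) hj (cs_lt hv),
    ← dec_sub (by norm_num) hj (cs_lt hv) hq]
  simp [sub_eq_add_neg]

lemma cs_tr1_0 {q : ℕ} (hq : q < 27) (D : Finset W5) {i : ℕ} (hi : i < 3) :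
    cs ((tr1 q hq).img D) i 0 = cs D i 0 := by
  rw [cs_img (keep_tr1 hq) hi (by norm_num) (fun v => v), Finset.image_id']
  intro v hv
  refine ⟨cs_lt hv, ?_⟩
  rw [tr1, shear_act, dec_code_1 hi (by norm_num) (cs_lt hv)]
  simp

lemma cs_tr1_1 {q : ℕ} (hq : q < 27) (D : Finset W5) {i : ℕ} (hi : i < 3) :
    cs ((tr1 q hq).img D) i 1 = (cs D i 1).image (fun v => sub3 v q) := by
  refine cs_img (keep_tr1 hq) hi (by norm_num) (fun v => sub3 v q) ?_
  intro v hv
  refine ⟨sub3_lt _ _, ?_⟩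
  rw [tr1, shear_act, dec_code_1 hi (by norm_num) (cs_lt hv),
    ← dec_sub hi (by norm_num) (cs_lt hv) hq]
  simp [sub_eq_add_neg]

lemma sub3_self (q : ℕ) : sub3 q q = 0 := by
  unfold sub3
  omega

/-! ### certificates -/

/-- test of a bit -/
def tb (m v : ℕ) : Bool := Nat.beq (Nat.land (Nat.shiftRight m v) 1) 1

lemma beq_decide (x y : ℕ) : Nat.beq x y = decide (x = y) := by
  by_cases h : x = y
  · subst h
    rw [decide_eq_true rfl]
    exact Nat.beq_refl x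
  · rw [decide_eq_false h]
    cases hb : Nat.beq x y
    · rfl
    · exact absurd (Nat.eq_of_beq_eq_true hb) h

lemma tb_iff (m v : ℕ) : tb m v = m.testBit v := by
  rw [Nat.testBit_eq_decide_div_mod_eq]
  have h1 : tb m v = Nat.beq ((m >>> v) &&& 1) 1 := rfl
  rw [h1, Nat.and_one_is_mod, Nat.shiftRight_eq_div_pow, beq_decide]

/-- the codes of a solid -/
def r27 : List ℕ := [0, 1, 2, 3, 4, 5, 6, 7, 8, 9, 10, 11, 12, 13, 14, 15, 16, 17, 18, 19, 20, 21,
  22, 23, 24, 25, 26]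

lemma mem_r27 {v : ℕ} (h : v < 27) : v ∈ r27 := by
  have : ∀ v : Fin 27, (v : ℕ) ∈ r27 := by decide +kernel
  exact this ⟨v, h⟩

/-- the map `(M, t)` sends the points `c + 9 v`, `v` in the mask `m`, to points `c + 9 w`,
`w` in the list -/
noncomputable def imgOK (m M t c : ℕ) (L : List ℕ) : Bool :=
  allL (fun v => Bool.rec true (force (act5 M t (Nat.add c (Nat.mul 9 v))) fun x =>
    anyL (fun w => Nat.beq x (Nat.add c (Nat.mul 9 w))) L) (tb m v)) r27

lemma imgOK_spec {m M t c : ℕ} {L : List ℕ} (h : imgOK m M t c L = true) {v : ℕ} (hv : v < 27)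
    (hb : m.testBit v = true) : ∃ w ∈ L, act5 M t (c + 9 * v) = c + 9 * w := by
  rw [imgOK, allL_iff] at h
  have h1 := h v (mem_r27 hv)
  have h2 := of_rec_true h1 (by rw [tb_iff, hb])
  rw [force_eq, anyL_iff] at h2
  obtain ⟨w, hw, h3⟩ := h2
  exact ⟨w, hw, Nat.eq_of_beq_eq_true h3⟩

/-- the map keeps the first two coordinates and is invertible -/
noncomputable def keepOK (M N t : ℕ) : Bool :=
  mulOK M N && (Nat.beq (Nat.mod M 59049) 730 && Nat.beq (Nat.mod t 9) 0)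

lemma keepOK_spec {M N t : ℕ} (h : keepOK M N t = true) :
    ∃ hm : mulOK M N = true, Keep (affOf M N t hm) := by
  rw [keepOK, Bool.and_eq_true, Bool.and_eq_true] at h
  exact ⟨h.1, keep_affOf h.1 (Nat.eq_of_beq_eq_true h.2.1) (Nat.eq_of_beq_eq_true h.2.2)⟩

/-- image of a cell under a certified map -/
lemma cs_affOf_sub {M N t : ℕ} (hm : mulOK M N = true) (hk : Keep (affOf M N t hm))
    {D : Finset W5} {i j : ℕ} (hi : i < 3) (hj : j < 3) {m : ℕ} {L : List ℕ}
    (hL27 : ∀ w ∈ L, w < 27)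
    (h : imgOK m M t (i + 3 * j) L = true) (hmask : ∀ v ∈ cs D i j, m.testBit v = true) :
    ∀ w ∈ cs ((affOf M N t hm).img D) i j, w ∈ L := by
  have key : ∀ v ∈ cs D i j, ∃ w ∈ L, act5 M t (i + 3 * j + 9 * v) = i + 3 * j + 9 * w :=
    fun v hv => imgOK_spec h (cs_lt hv) (hmask v hv)
  have e : cs ((affOf M N t hm).img D) i j =
      (cs D i j).image (fun v => (act5 M t (i + 3 * j + 9 * v) - (i + 3 * j)) / 9) := by
    refine cs_img hk hi hj _ ?_
    intro v hv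
    obtain ⟨w, hw, hwv⟩ := key v hv
    have h9 : (act5 M t (i + 3 * j + 9 * v) - (i + 3 * j)) / 9 = w := by
      rw [hwv]
      omega
    rw [h9, affOf_act, hwv]
    exact ⟨hL27 w hw, rfl⟩
  intro w hw
  rw [e, Finset.mem_image] at hw
  obtain ⟨v, hv, rfl⟩ := hw
  obtain ⟨w', hw', hwv⟩ := key v hv
  have h9 : (act5 M t (i + 3 * j + 9 * v) - (i + 3 * j)) / 9 = w' := by
    rw [hwv]
    omega
  rw [h9]
  exact hw'

/-- a set contained in a list of the same size is the set of elements of the list -/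
lemma mem_iff_of_sub {S : Finset ℕ} {L : List ℕ} {n : ℕ} (hS : S.card = n) (hL : L.length = n)
    (h : ∀ w ∈ S, w ∈ L) : ∀ w, w ∈ S ↔ w ∈ L := by
  have h1 : S = L.toFinset := by
    apply Finset.eq_of_subset_of_card_le
    · intro w hw
      exact List.mem_toFinset.mpr (h w hw)
    · rw [hS, ← hL]
      exact List.toFinset_card_le L
  intro w
  rw [h1, List.mem_toFinset]

end Pool.Agent.H29.EGZ
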