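import Mathlib
import Pool.Agent.H29.EGZ.B.Img

/-!
# A frame in the first solid
-/

set_option autoImplicit false

namespace Pool.Agent.H29.EGZ

open Finset Matrix

/-- the first unit vector -/
def e0 : W5 := Pi.single 0 1

/-- the second unit vector -/
def e1 : W5 := Pi.single 1 1

lemma exists_dot_zero (S : Submodule (ZMod 3) W5) (hS : S ≠ ⊤) :
    ∃ ξ : W5, ξ ≠ 0 ∧ ∀ x ∈ S, dotProduct ξ x = 0 := by
  obtain ⟨f, hf, hle⟩ := Submodule.exists_le_ker_of_lt_top S (lt_top_iff_ne_top.mpr hS)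
  have key : ∀ x : W5, dotProduct (fun i => f fun j => if i = j then 1 else 0) x = f x := by
    intro x
    rw [LinearMap.pi_apply_eq_sum_univ f x]
    unfold dotProduct
    exact Finset.sum_congr rfl fun i _ => by rw [smul_eq_mul, mul_comm]
  refine ⟨fun i => f fun j => if i = j then 1 else 0, ?_, ?_⟩
  · intro h0
    apply hf
    apply LinearMap.ext
    intro x
    rw [← key x, h0, zero_dotProduct]
    rfl
  · intro x hx
    rw [key x]
    exact LinearMap.mem_ker.mp (hle hx)

lemma frame_step {D : Finset W5} (hD : IsCap D) (hC : 5 ≤ (cell D 0 0).card) {p0 : W5}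
    {k : ℕ} (hk : k < 5) (b : Fin k → W5)
    (h0 : e0 ∈ Submodule.span (ZMod 3) (Set.range b))
    (h1 : e1 ∈ Submodule.span (ZMod 3) (Set.range b)) :
    ∃ p ∈ cell D 0 0, p - p0 ∉ Submodule.span (ZMod 3) (Set.range b) := by
  by_contra hno
  push Not at hno
  have hS : Submodule.span (ZMod 3) (Set.range b) ≠ ⊤ := by
    intro htop
    have h2 := finrank_range_le_card (R := ZMod 3) b
    rw [Set.finrank, htop, finrank_top, Module.finrank_fin_fun, Fintype.card_fin] at h2
    omega
  obtain ⟨ξ, hξ, hξS⟩ := exists_dot_zero _ hS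
  have x0 : ξ 0 = 0 := by
    have := hξS e0 h0
    simpa [e0] using this
  have x1 : ξ 1 = 0 := by
    have := hξS e1 h1
    simpa [e1] using this
  have hli : LinearIndependent (ZMod 3) ![e0, e1, ξ] := by
    rw [Fintype.linearIndependent_iff]
    intro g hg
    rw [Fin.sum_univ_three] at hg
    have c0 := congrFun hg 0
    have c1 := congrFun hg 1
    have g0 : g 0 = 0 := by
      simpa [e0, e1, x0] using c0
    have g1 : g 1 = 0 := by
      simpa [e0, e1, x1] using c1
    have g2 : g 2 = 0 := by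
      have h3 : g 2 • ξ = 0 := by
        have h4 := hg
        simp only [g0, g1, zero_smul, zero_add] at h4
        exact h4
      rcases smul_eq_zero.mp h3 with h | h
      · exact h
      · exact absurd h hξ
    intro i
    fin_cases i
    · exact g0
    · exact g1
    · exact g2
  have hle := plane_le hD ![e0, e1, ξ] hli ![0, 0, dotProduct ξ p0]
  have hsub : cell D 0 0 ⊆ D.filter (fun u => ∀ i, dotProduct ((![e0, e1, ξ] : Fin 3 → W5) i) u =
      (![0, 0, dotProduct ξ p0] : Fin 3 → ZMod 3) i) := by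
    intro u hu
    have hu' := hu
    simp only [cell, Finset.mem_filter] at hu'
    rw [Finset.mem_filter]
    refine ⟨hu'.1, ?_⟩
    intro i
    fin_cases i
    · show dotProduct e0 u = 0
      rw [e0, single_dotProduct, one_mul, hu'.2.1]
    · show dotProduct e1 u = 0
      rw [e1, single_dotProduct, one_mul, hu'.2.2]
    · show dotProduct ξ u = dotProduct ξ p0
      have := hξS _ (hno u hu)
      rw [dotProduct_sub, sub_eq_zero] at this
      exact this
  have := (Finset.card_le_card hsub).trans hle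
  omega

lemma frame_ind {D : Finset W5} (hD : IsCap D) (hC : 5 ≤ (cell D 0 0).card) (p0 : W5) (k : ℕ)
    (hk : k ≤ 3) : ∃ b : Fin (2 + k) → W5, LinearIndependent (ZMod 3) b ∧
      b ⟨0, by omega⟩ = e0 ∧ b ⟨1, by omega⟩ = e1 ∧
      ∀ (i : ℕ) (hi : i < 2 + k), 2 ≤ i → b ⟨i, hi⟩ + p0 ∈ cell D 0 0 := by
  induction k with
  | zero =>
    refine ⟨![e0, e1], ?_, rfl, rfl, ?_⟩
    · rw [Fintype.linearIndependent_iff]
      intro g hg
      rw [Fin.sum_univ_two] at hg
      have c0 := congrFun hg 0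
      have c1 := congrFun hg 1
      simp only [e0, e1, Matrix.cons_val_zero, Matrix.cons_val_one,
        Pi.add_apply, Pi.smul_apply, Pi.zero_apply, smul_eq_mul, Pi.single_eq_same] at c0 c1
      intro i
      fin_cases i
      · simpa using c0
      · simpa using c1
    · intro i hi h2
      omega
  | succ k ih =>
    obtain ⟨b, hb, b0, b1, hbC⟩ := ih (by omega)
    obtain ⟨p, hp, hps⟩ := frame_step hD hC (p0 := p0) (by omega : 2 + k < 5) b
      (b0 ▸ Submodule.subset_span ⟨_, rfl⟩) (b1 ▸ Submodule.subset_span ⟨_, rfl⟩)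
    refine ⟨Fin.snoc b (p - p0), linearIndependent_finSnoc.mpr ⟨hb, hps⟩, ?_, ?_, ?_⟩
    · have e : (⟨0, by omega⟩ : Fin (2 + (k + 1))) = Fin.castSucc (⟨0, by omega⟩ : Fin (2 + k)) :=
        rfl
      rw [e]
      exact (Fin.snoc_castSucc _ _ _).trans b0
    · have e : (⟨1, by omega⟩ : Fin (2 + (k + 1))) = Fin.castSucc (⟨1, by omega⟩ : Fin (2 + k)) :=
        rfl
      rw [e]
      exact (Fin.snoc_castSucc _ _ _).trans b1
    · intro i hi h2
      rcases Nat.lt_succ_iff_lt_or_eq.mp hi with hlt | heq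
      · have e : (⟨i, hi⟩ : Fin (2 + (k + 1))) = Fin.castSucc (⟨i, hlt⟩ : Fin (2 + k)) := rfl
        rw [e]
        have h3 : (Fin.snoc b (p - p0) : Fin (2 + k + 1) → W5) (Fin.castSucc ⟨i, hlt⟩) =
            b ⟨i, hlt⟩ := Fin.snoc_castSucc _ _ _
        have h4 := hbC i hlt h2
        rw [← h3] at h4
        exact h4
      · have e : (⟨i, hi⟩ : Fin (2 + (k + 1))) = Fin.last (2 + k) := by
          apply Fin.ext
          exact heq
        rw [e]
        have h3 : (Fin.snoc b (p - p0) : Fin (2 + k + 1) → W5) (Fin.last (2 + k)) = p - p0 :=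
          Fin.snoc_last _ _
        have h4 : (Fin.snoc b (p - p0) : Fin (2 + k + 1) → W5) (Fin.last (2 + k)) + p0 ∈
            cell D 0 0 := by
          rw [h3, sub_add_cancel]
          exact hp
        exact h4

/-- there is an affine map which keeps the layout and sends four points of the first solid to the
standard frame -/
theorem exists_frame {D : Finset W5} (hD : IsCap D) (hC : 5 ≤ (cell D 0 0).card) :
    ∃ g : Aff 5, Keep g ∧ ∀ v ∈ ([0, 1, 3, 9] : List ℕ), v ∈ cs (g.img D) 0 0 := by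
  obtain ⟨p0, hp0⟩ := Finset.card_pos.mp (by omega : 0 < (cell D 0 0).card)
  obtain ⟨b, hb, b0, b1, hbC⟩ : ∃ b : Fin 5 → W5, LinearIndependent (ZMod 3) b ∧
      b ⟨0, by omega⟩ = e0 ∧ b ⟨1, by omega⟩ = e1 ∧
      ∀ (i : ℕ) (hi : i < 5), 2 ≤ i → b ⟨i, hi⟩ + p0 ∈ cell D 0 0 := frame_ind hD hC p0 3 le_rfl
  have hp0' := hp0
  simp only [cell, Finset.mem_filter] at hp0'
  -- the matrix with columns `b`
  have hU : IsUnit (Matrix.of b)ᵀ := by
    rw [Matrix.isUnit_transpose, ← Matrix.linearIndependent_rows_iff_isUnit]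
    exact hb
  have hdet : IsUnit ((Matrix.of b)ᵀ).det := (Matrix.isUnit_iff_isUnit_det _).mp hU
  set h : Aff 5 := ⟨(Matrix.of b)ᵀ, ((Matrix.of b)ᵀ)⁻¹, p0, Matrix.mul_nonsing_inv _ hdet,
    Matrix.nonsing_inv_mul _ hdet⟩ with hh
  have hact : ∀ u : W5, h.act u = (Matrix.of b)ᵀ *ᵥ u + p0 := fun u => rfl
  have hcol : ∀ i : Fin 5, h.act (Pi.single i 1) = b i + p0 := by
    intro i
    rw [hact, Matrix.mulVec_single_one]
    rfl
  have hb0 : b 0 = e0 := b0
  have hb1 : b 1 = e1 := b1
  have hb2 : b 2 + p0 ∈ cell D 0 0 := hbC 2 (by omega) le_rfl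
  have hb3 : b 3 + p0 ∈ cell D 0 0 := hbC 3 (by omega) (by omega)
  have hb4 : b 4 + p0 ∈ cell D 0 0 := hbC 4 (by omega) (by omega)
  have z2 : b 2 0 = 0 ∧ b 2 1 = 0 := by
    simp only [cell, Finset.mem_filter, Pi.add_apply, hp0'.2.1, hp0'.2.2, add_zero] at hb2
    exact hb2.2
  have z3 : b 3 0 = 0 ∧ b 3 1 = 0 := by
    simp only [cell, Finset.mem_filter, Pi.add_apply, hp0'.2.1, hp0'.2.2, add_zero] at hb3
    exact hb3.2
  have z4 : b 4 0 = 0 ∧ b 4 1 = 0 := by
    simp only [cell, Finset.mem_filter, Pi.add_apply, hp0'.2.1, hp0'.2.2, add_zero] at hb4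
    exact hb4.2
  have hkeep : Keep h := by
    intro u
    rw [hact, Pi.add_apply, Pi.add_apply, hp0'.2.1, hp0'.2.2, add_zero, add_zero]
    simp only [mulVec, dotProduct, transpose_apply, Matrix.of_apply, Fin.sum_univ_five, hb0, hb1,
      z2.1, z2.2, z3.1, z3.2, z4.1, z4.2, e0, e1, zero_mul, add_zero]
    constructor <;> simp
  refine ⟨h.inv, hkeep.inv, ?_⟩
  have hmem : ∀ (v : ℕ) (w : W5), v < 27 → dec (9 * v) = w → h.act w ∈ D →
      v ∈ cs (h.inv.img D) 0 0 := by
    intro v w hv hw hD'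
    rw [mem_cs]
    refine ⟨hv, ?_⟩
    have e : 0 + 3 * 0 + 9 * v = 9 * v := by ring
    have h5 : h.inv.inv.act w = h.act w := by
      have h6 := h.act_inv_act (h.inv.inv.act w)
      rw [h.inv.act_inv_act] at h6
      exact h6.symm
    rw [e, hw, h.inv.mem_img, h5]
    exact hD'
  intro v hv
  simp only [List.mem_cons, List.not_mem_nil, or_false] at hv
  rcases hv with rfl | rfl | rfl | rfl
  · have hz : h.act 0 ∈ D := by
      rw [hact, mulVec_zero, zero_add]
      exact hp0'.1
    exact hmem 0 0 (by norm_num) dec_zero hz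
  · refine hmem 1 (Pi.single 2 1) (by norm_num) (by decide +kernel) ?_
    rw [hcol]
    exact (Finset.mem_filter.mp hb2).1
  · refine hmem 3 (Pi.single 3 1) (by norm_num) (by decide +kernel) ?_
    rw [hcol]
    exact (Finset.mem_filter.mp hb3).1
  · refine hmem 9 (Pi.single 4 1) (by norm_num) (by decide +kernel) ?_
    rw [hcol]
    exact (Finset.mem_filter.mp hb4).1

end Pool.Agent.H29.EGZ
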