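import Mathlib
import Pool.Agent.H29.EGZ.B.Frame
import Pool.Agent.H29.EGZ.B.Data
import Pool.Agent.H29.EGZ.B.Certs

/-!
# Small checks of the classification
-/

set_option autoImplicit false

namespace Pool.Agent.H29.EGZ

/-- check of one certificate for the first cell -/
noncomputable def chkE (L : List ℕ) (e : ℕ × ℕ × ℕ × ℕ) : Bool :=
  keepOK e.2.1 e.2.2.1 e.2.2.2 && imgOK e.1 e.2.1 e.2.2.2 0 L

/-- the mask occurs in the list -/
noncomputable def inC (C : List (ℕ × ℕ × ℕ × ℕ)) (m : ℕ) : Bool := anyL (fun e => Nat.beq m e.1) C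

/-- leaf test of the first enumeration -/
noncomputable def leafT0 (l : List ℕ) : Bool :=
  force (maskOf l) fun m => inC cert00 m || (inC cert01 m || inC cert02 m)

/-- points allowed besides the frame -/
def A0 : ℕ := 116128944

/-- the first enumeration -/
noncomputable def chkT0 : Bool := enum 0 g0 leafT0 30 4 [0, 1, 3, 9] A0

/-- check of one certificate for the second cell -/
noncomputable def chkE1 (L : List ℕ) (R : List (List ℕ × ℕ)) (e : ℕ × ℕ × ℕ × ℕ × ℕ) : Bool :=
  keepOK e.2.2.1 e.2.2.2.1 e.2.2.2.2 && (imgOK (maskOf L) e.2.2.1 e.2.2.2.2 0 L &&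
    (imgOK e.1 e.2.2.1 e.2.2.2.2 1 (R.getD e.2.1 ([], 0)).1 && Nat.blt e.2.1 R.length))

/-- check of a list of 8-caps with tables -/
noncomputable def okL (L : List (List ℕ × ℕ)) : Bool :=
  allL (fun p => Nat.beq (tab p.1 27) p.2 && (allL (fun x => Nat.blt x 27) p.1 &&
    Nat.beq p.1.length 8)) L

/-- check of one final certificate -/
noncomputable def chkF (e : ℕ × ℕ × ℕ × ℕ) : Bool :=
  mulOK e.2.1 e.2.2.1 && allL (fun n => Bool.rec true (memb (act5 e.2.1 e.2.2.2 n) capCodes)
    (tb e.1 n)) (List.range 243)

lemma chk_t0 : chkT0 = true := by decide +kernel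

lemma chk_e00 : allL (chkE rep0) cert00 = true := by decide +kernel

lemma chk_e01 : allL (chkE rep1) cert01 = true := by decide +kernel

lemma chk_e02 : allL (chkE rep2) cert02 = true := by decide +kernel

lemma chk_e10 : allL (chkE1 rep0 first0) cert10 = true := by decide +kernel

lemma chk_e11 : allL (chkE1 rep1 first1) cert11 = true := by decide +kernel

lemma chk_e12 : allL (chkE1 rep2 first2) cert12 = true := by decide +kernel

lemma chk_m0 : cert10.map Prod.fst = pmask0 := by decide +kernel

lemma chk_m1 : cert11.map Prod.fst = pmask1 := by decide +kernel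

lemma chk_m2 : cert12.map Prod.fst = pmask2 := by decide +kernel

lemma chk_pm0 : part0.map (fun p => maskOf p.1) = pmask0 := by decide +kernel

lemma chk_pm1 : part1.map (fun p => maskOf p.1) = pmask1 := by decide +kernel

lemma chk_pm2 : part2.map (fun p => maskOf p.1) = pmask2 := by decide +kernel

lemma chk_ok0 : okL ((rep0, rtab0) :: (part0 ++ first0)) = true := by decide +kernel

lemma chk_ok1 : okL ((rep1, rtab1) :: (part1 ++ first1)) = true := by decide +kernel

lemma chk_ok2 : okL ((rep2, rtab2) :: (part2 ++ first2)) = true := by decide +kernel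

lemma chk_f : allL chkF certF = true := by decide +kernel

lemma chk_fm : certF.map Prod.fst = finals := by decide +kernel

end Pool.Agent.H29.EGZ
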