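import Pool.Agent.H29.EGZ.B.Data

/-!
# Final search for representative 1
-/

set_option autoImplicit false

namespace Pool.Agent.H29.EGZ

theorem chk_t2_1 : chkT2 finals rep1 rtab1 first1 part1 = true := by decide +kernel

end Pool.Agent.H29.EGZ
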