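import Mathlib
import Pool.Agent.H29.EGZ.B.Chk
import Pool.Agent.H29.EGZ.B.K1a
import Pool.Agent.H29.EGZ.B.K1b
import Pool.Agent.H29.EGZ.B.K1c
import Pool.Agent.H29.EGZ.B.K2a
import Pool.Agent.H29.EGZ.B.K2b
import Pool.Agent.H29.EGZ.B.K2c

/-!
# Classification of the 45-caps with sections of the two types
-/

set_option autoImplicit false

namespace Pool.Agent.H29.EGZ

open Finset Matrix

/-- equivalence to the standard cap -/
def Std (D : Finset W5) : Prop := ∃ g : Aff 5, g.img D = cap45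

lemma Std.of_img {D : Finset W5} {g : Aff 5} (h : Std (g.img D)) : Std D := by
  obtain ⟨f, hf⟩ := h
  exact ⟨f.comp g, by rw [Aff.comp_img, hf]⟩

/-! ### the data of one class -/

/-- the checks for one class -/
structure Cls (rep : List ℕ) (rtab : ℕ) (part first : List (List ℕ × ℕ)) (pmask : List ℕ)
    (cert1 : List (ℕ × ℕ × ℕ × ℕ × ℕ)) : Prop where
  ok : okL ((rep, rtab) :: (part ++ first)) = true
  e1 : allL (chkE1 rep first) cert1 = true
  m1 : cert1.map Prod.fst = pmask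
  pm : part.map (fun p => maskOf p.1) = pmask
  t1 : chkT1 rtab pmask = true
  t2 : chkT2 finals rep rtab first part = true

lemma cls0 : Cls rep0 rtab0 part0 first0 pmask0 cert10 :=
  ⟨chk_ok0, chk_e10, chk_m0, chk_pm0, chk_t1_0, chk_t2_0⟩

lemma cls1 : Cls rep1 rtab1 part1 first1 pmask1 cert11 :=
  ⟨chk_ok1, chk_e11, chk_m1, chk_pm1, chk_t1_1, chk_t2_1⟩

lemma cls2 : Cls rep2 rtab2 part2 first2 pmask2 cert12 :=
  ⟨chk_ok2, chk_e12, chk_m2, chk_pm2, chk_t1_2, chk_t2_2⟩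

section

variable {rep : List ℕ} {rtab : ℕ} {part first : List (List ℕ × ℕ)} {pmask : List ℕ}
  {cert1 : List (ℕ × ℕ × ℕ × ℕ × ℕ)}

lemma okL_spec {L : List (List ℕ × ℕ)} (h : okL L = true) {p : List ℕ × ℕ} (hp : p ∈ L) :
    IsTab p.2 p.1 ∧ (∀ x ∈ p.1, x < 27) ∧ p.1.length = 8 := by
  rw [okL, allL_iff] at h
  have h1 := h p hp
  rw [Bool.and_eq_true, Bool.and_eq_true, allL_iff] at h1
  obtain ⟨h2, h3, h4⟩ := h1
  have h27 : ∀ x ∈ p.1, x < 27 := by
    intro x hx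
    have h5 := h3 x hx
    exact Nat.blt_eq.mp h5
  refine ⟨?_, h27, Nat.eq_of_beq_eq_true h4⟩
  rw [← Nat.eq_of_beq_eq_true h2]
  exact isTab_tab h27

/-! ### the last step -/

theorem step4 (hc : Cls rep rtab part first pmask cert1) {D : Finset W5} (hD : Lay D)
    (h0 : ∀ x, x ∈ rep ↔ x ∈ cs D 0 0) (h1 : ∃ p ∈ first, ∀ x, x ∈ p.1 ↔ x ∈ cs D 1 0)
    (h2 : ∃ p ∈ part, ∀ x, x ∈ p.1 ↔ x ∈ cs D 0 1) : Std D := by
  have ht0 := (okL_spec hc.ok (p := (rep, rtab)) (by simp)).1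
  obtain ⟨m, hm, hmk⟩ := t2_sound (F := finals) hD.nine h0 ht0
    (fun p hp => (okL_spec hc.ok (by simp [hp])).1)
    (fun p hp => (okL_spec hc.ok (by simp [hp])).1) h1 h2 hc.t2
  rw [← chk_fm, List.mem_map] at hm
  obtain ⟨e, he, rfl⟩ := hm
  have hF := chk_f
  rw [allL_iff] at hF
  have hFe := hF e he
  rw [chkF, Bool.and_eq_true, allL_iff] at hFe
  obtain ⟨hM, hA⟩ := hFe
  refine ⟨affOf e.2.1 e.2.2.1 e.2.2.2 hM, ?_⟩
  apply Finset.eq_of_subset_of_card_le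
  · intro w hw
    simp only [Aff.img, Finset.mem_map, Function.Embedding.coeFn_mk] at hw
    obtain ⟨u, hu, rfl⟩ := hw
    have hbit : e.1.testBit (enc u) = true := by
      rw [hmk]
      obtain ⟨i, hi, hui⟩ : ∃ i < 3, u 0 = ((i : ℕ) : ZMod 3) :=
        ⟨(u 0).val, val_lt3 _, (cast_val3 _).symm⟩
      obtain ⟨j, hj, huj⟩ : ∃ j < 3, u 1 = ((j : ℕ) : ZMod 3) :=
        ⟨(u 1).val, val_lt3 _, (cast_val3 _).symm⟩
      obtain ⟨v, hv, huv⟩ := exists_code u hi hj hui huj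
      have henc : enc u = i + 3 * j + 9 * v := by
        rw [huv, enc_dec (code_lt hi hj hv)]
      have hvc : v ∈ cs D i j := mem_cs.mpr ⟨hv, huv ▸ hu⟩
      rw [henc]
      have hi' : i = 0 ∨ i = 1 ∨ i = 2 := by omega
      have hj' : j = 0 ∨ j = 1 ∨ j = 2 := by omega
      rcases hi' with rfl | rfl | rfl <;> rcases hj' with rfl | rfl | rfl
      · exact Or.inl ⟨v, hvc, rfl⟩
      · exact Or.inr (Or.inr (Or.inl ⟨v, hvc, rfl⟩))
      · exact Or.inr (Or.inr (Or.inr (Or.inr (Or.inl ⟨v, hvc, rfl⟩))))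
      · exact Or.inr (Or.inl ⟨v, hvc, rfl⟩)
      · exact Or.inr (Or.inr (Or.inr (Or.inr (Or.inr (Or.inr (Or.inl ⟨v, hvc, rfl⟩))))))
      · exact Or.inr (Or.inr (Or.inr (Or.inr (Or.inr (Or.inr (Or.inr (Or.inl ⟨v, hvc, rfl⟩)))))))
      · exact Or.inr (Or.inr (Or.inr (Or.inl ⟨v, hvc, rfl⟩)))
      · exact Or.inr (Or.inr (Or.inr (Or.inr (Or.inr (Or.inr (Or.inr (Or.inr ⟨v, hvc, rfl⟩)))))))
      · exact Or.inr (Or.inr (Or.inr (Or.inr (Or.inr (Or.inl ⟨v, hvc, rfl⟩)))))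
    have h5 := hA (enc u) (List.mem_range.mpr (enc_lt u))
    have h6 := of_rec_true h5 (by rw [tb_iff, hbit])
    rw [memb_iff] at h6
    have h7 := affOf_act (t := e.2.2.2) hM (enc u)
    rw [dec_enc] at h7
    rw [h7, cap45, List.mem_toFinset, List.mem_map]
    exact ⟨_, h6, rfl⟩
  · rw [Aff.card_img, hD.card, cap45_card]

/-! ### the third cell -/

/-- the partner enumeration for a cell -/
lemma partner (hc : Cls rep rtab part first pmask cert1) {X Z : Finset ℕ} {A : Finset ℕ}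
    (hA : ∀ x, x ∈ rep ↔ x ∈ A) (hX8 : X.card = 8)
    (hX27 : ∀ x ∈ X, x < 27) (h0 : 0 ∈ X) (hZ2 : Z.card = 2) (hZ27 : ∀ z ∈ Z, z < 27)
    (hcap : CapSet X) (hline : NoLine A X Z) :
    ∃ q ∈ X, ∃ m ∈ pmask, ∀ j, m.testBit j = true ↔ j ∈ X.image (fun v => sub3 v q) := by
  have ht0 := (okL_spec hc.ok (p := (rep, rtab)) (by simp)).1
  have hA' : rep.toFinset = A := by
    ext x
    rw [List.mem_toFinset, hA]
  obtain ⟨q, hq, m, hm, hj⟩ := t1_sound ht0 hc.t1 hX8 hX27 h0 hZ2.ge hZ27 hcap (hA' ▸ hline)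
  refine ⟨q, hq, m, hm, fun j => ?_⟩
  rw [hj, Finset.mem_image]

lemma mem_part (hc : Cls rep rtab part first pmask cert1) {m : ℕ} (hm : m ∈ pmask)
    {X : Finset ℕ} (h : ∀ j, m.testBit j = true ↔ j ∈ X) :
    ∃ p ∈ part, ∀ x, x ∈ p.1 ↔ x ∈ X := by
  rw [← hc.pm, List.mem_map] at hm
  obtain ⟨p, hp, rfl⟩ := hm
  refine ⟨p, hp, fun x => ?_⟩
  rw [← h x, testBit_maskOf]

theorem step3 (hc : Cls rep rtab part first pmask cert1) {D : Finset W5} (hD : Lay D)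
    (h0 : ∀ x, x ∈ rep ↔ x ∈ cs D 0 0) (h1 : ∃ p ∈ first, ∀ x, x ∈ p.1 ↔ x ∈ cs D 1 0) :
    Std D := by
  -- a point of the cell (0,1) becomes the origin
  obtain ⟨p, hp⟩ := Finset.card_pos.mp (by rw [hD.c8.2.2]; norm_num : 0 < (cs D 0 1).card)
  have hp27 := cs_lt hp
  apply Std.of_img (g := tr1 p hp27)
  have hD1 := hD.img (keep_tr1 hp27)
  have e00 := cs_tr1_0 hp27 D (i := 0) (by norm_num)
  have e10 := cs_tr1_0 hp27 D (i := 1) (by norm_num)
  have h0in : 0 ∈ cs ((tr1 p hp27).img D) 0 1 := by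
    rw [cs_tr1_1 hp27 D (by norm_num), Finset.mem_image]
    exact ⟨p, hp, sub3_self p⟩
  rw [← e00] at h0
  rw [← e10] at h1
  generalize (tr1 p hp27).img D = D1 at hD1 h0 h1 h0in
  have hN := hD1.nine
  obtain ⟨q, hq, m, hm, hj⟩ := partner hc h0 hD1.c8.2.2 hN.b2 h0in hD1.c2.2.1 hN.b02
    (capSet_cs hD1.cap (by norm_num) (by norm_num)) hN.n3
  have hq27 := cs_lt hq
  apply Std.of_img (g := tr1 q hq27)
  have hD2 := hD1.img (keep_tr1 hq27)
  refine step4 hc hD2 ?_ ?_ ?_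
  · rw [cs_tr1_0 hq27 D1 (by norm_num)]
    exact h0
  · rw [cs_tr1_0 hq27 D1 (by norm_num)]
    exact h1
  · rw [cs_tr1_1 hq27 D1 (by norm_num)]
    exact mem_part hc hm hj

/-! ### the second cell -/

theorem step2 (hc : Cls rep rtab part first pmask cert1) {D : Finset W5} (hD : Lay D)
    (h0 : ∀ x, x ∈ rep ↔ x ∈ cs D 0 0)
    (h1 : ∃ m ∈ pmask, ∀ j, m.testBit j = true ↔ j ∈ cs D 1 0) : Std D := by
  obtain ⟨m, hm, hj⟩ := h1
  rw [← hc.m1, List.mem_map] at hm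
  obtain ⟨e, he, rfl⟩ := hm
  have h3 := hc.e1
  rw [allL_iff] at h3
  have h4 := h3 e he
  rw [chkE1, Bool.and_eq_true, Bool.and_eq_true, Bool.and_eq_true] at h4
  obtain ⟨hk, hi0, hi1, hlt⟩ := h4
  obtain ⟨hM, hK⟩ := keepOK_spec hk
  have hlt' : e.2.1 < first.length := Nat.blt_eq.mp hlt
  have hget : first.getD e.2.1 ([], 0) = first[e.2.1] := List.getD_eq_getElem _ _ hlt'
  have hmem : first[e.2.1] ∈ first := List.getElem_mem _
  rw [hget] at hi1
  obtain ⟨_, hr27, hr8⟩ := okL_spec hc.ok (p := (rep, rtab)) (by simp)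
  obtain ⟨_, hf27, hf8⟩ := okL_spec hc.ok (p := first[e.2.1]) (by simp [hmem])
  apply Std.of_img (g := affOf e.2.2.1 e.2.2.2.1 e.2.2.2.2 hM)
  have hD1 := hD.img hK
  refine step3 hc hD1 ?_ ⟨first[e.2.1], hmem, ?_⟩
  · have h5 := cs_affOf_sub hM hK (D := D) (i := 0) (j := 0) (by norm_num) (by norm_num) hr27 hi0
      (by
        intro v hv
        rw [testBit_maskOf, h0]
        exact hv)
    intro x
    exact (mem_iff_of_sub hD1.c8.1 hr8 h5 x).symm
  · have h5 := cs_affOf_sub hM hK (D := D) (i := 1) (j := 0) (by norm_num) (by norm_num) hf27 hi1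
      (fun v hv => (hj v).mpr hv)
    intro x
    exact (mem_iff_of_sub hD1.c8.2.1 hf8 h5 x).symm

theorem step1 (hc : Cls rep rtab part first pmask cert1) {D : Finset W5} (hD : Lay D)
    (h0 : ∀ x, x ∈ rep ↔ x ∈ cs D 0 0) : Std D := by
  obtain ⟨p, hp⟩ := Finset.card_pos.mp (by rw [hD.c8.2.1]; norm_num : 0 < (cs D 1 0).card)
  have hp27 := cs_lt hp
  apply Std.of_img (g := tr0 p hp27)
  have hD1 := hD.img (keep_tr0 hp27)
  have e00 := cs_tr0_0 hp27 D (j := 0) (by norm_num)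
  have h0in : 0 ∈ cs ((tr0 p hp27).img D) 1 0 := by
    rw [cs_tr0_1 hp27 D (by norm_num), Finset.mem_image]
    exact ⟨p, hp, sub3_self p⟩
  rw [← e00] at h0
  generalize (tr0 p hp27).img D = D1 at hD1 h0 h0in
  have hN := hD1.nine
  obtain ⟨q, hq, m, hm, hj⟩ := partner hc h0 hD1.c8.2.1 hN.b1 h0in hD1.c2.1 hN.b20
    (capSet_cs hD1.cap (by norm_num) (by norm_num)) hN.n1
  have hq27 := cs_lt hq
  apply Std.of_img (g := tr0 q hq27)
  have hD2 := hD1.img (keep_tr0 hq27)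
  refine step2 hc hD2 ?_ ⟨m, hm, ?_⟩
  · rw [cs_tr0_0 hq27 D1 (by norm_num)]
    exact h0
  · rw [cs_tr0_1 hq27 D1 (by norm_num)]
    exact hj

lemma step0 (hc : Cls rep rtab part first pmask cert1) {cert : List (ℕ × ℕ × ℕ × ℕ)}
    (hcert : allL (chkE rep) cert = true) {D : Finset W5} (hD : Lay D) {m : ℕ}
    (hm : inC cert m = true) (hj : ∀ v ∈ cs D 0 0, m.testBit v = true) : Std D := by
  rw [inC, anyL_iff] at hm
  obtain ⟨e, he, hme⟩ := hm
  have hme' : m = e.1 := Nat.eq_of_beq_eq_true hme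
  rw [allL_iff] at hcert
  have h4 := hcert e he
  rw [chkE, Bool.and_eq_true] at h4
  obtain ⟨hk, hi0⟩ := h4
  obtain ⟨hM, hK⟩ := keepOK_spec hk
  obtain ⟨_, hr27, hr8⟩ := okL_spec hc.ok (p := (rep, rtab)) (by simp)
  apply Std.of_img (g := affOf e.2.1 e.2.2.1 e.2.2.2 hM)
  have hD1 := hD.img hK
  refine step1 hc hD1 ?_
  have h5 := cs_affOf_sub hM hK (D := D) (i := 0) (j := 0) (by norm_num) (by norm_num) hr27 hi0
    (fun v hv => by rw [← hme']; exact hj v hv)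
  intro x
  exact (mem_iff_of_sub hD1.c8.1 hr8 h5 x).symm

end

/-! ### the first cell -/

lemma A0_spec : ∀ v : Fin 27, A0.testBit (v : ℕ) = false → (v : ℕ) ∈ ([0, 1, 3, 9] : List ℕ) ∨
    ∃ a ∈ ([0, 1, 3, 9] : List ℕ), ∃ b ∈ ([0, 1, 3, 9] : List ℕ), a ≠ b ∧ T3 a b = v := by
  decide +kernel

theorem Lay.std {D : Finset W5} (hD : Lay D) : Std D := by
  have h8 := hD.c8.1
  have hcell : 5 ≤ (cell D 0 0).card := by
    have h1 := hD.cells 0 0
    have h2 : small (0 : ZMod 3) (0 : ZMod 3) = 0 := by decide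
    omega
  obtain ⟨g, hg, hfr⟩ := exists_frame hD.cap hcell
  apply Std.of_img (g := g)
  have hD1 := hD.img hg
  generalize g.img D = D1 at hD1 hfr
  have hF4 : ([0, 1, 3, 9] : List ℕ).toFinset.card = 4 := by decide
  have hFsub : ([0, 1, 3, 9] : List ℕ).toFinset ⊆ cs D1 0 0 := by
    intro v hv
    exact hfr v (List.mem_toFinset.mp hv)
  have hcap := capSet_cs hD1.cap (i := 0) (j := 0) (by norm_num) (by norm_num)
  have hN := hD1.nine
  have hS : ∀ v, v ∈ cs D1 0 0 \ ([0, 1, 3, 9] : List ℕ).toFinset ↔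
      v ∈ cs D1 0 0 ∧ v ∉ ([0, 1, 3, 9] : List ℕ) := by
    intro v
    rw [Finset.mem_sdiff, List.mem_toFinset]
  have hc : chkT0 = true := chk_t0
  rw [chkT0] at hc
  obtain ⟨l, hl, hleaf⟩ := enum_sound ∅ (by simp) (fun _ _ => rfl) 30 4 [0, 1, 3, 9] A0 hc
    (by
      intro x hx
      exact cs_lt (hfr x hx))
    (cs D1 0 0 \ ([0, 1, 3, 9] : List ℕ).toFinset)
    (by rw [Finset.card_sdiff_of_subset hFsub, hD1.c8.1, hF4])
    (by
      intro v hv
      exact cs_lt ((hS v).mp hv).1)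
    (by
      intro v hv
      obtain ⟨hv1, hv2⟩ := (hS v).mp hv
      by_contra hb
      rw [Bool.not_eq_true] at hb
      rcases A0_spec ⟨v, cs_lt hv1⟩ hb with h | ⟨a, ha, b, hb', hne, h⟩
      · exact hv2 h
      · have h' : T3 a b = v := h
        exact hcap a (hfr a ha) b (hfr b hb') hne (h' ▸ hv1))
    (fun z hz => absurd hz (Finset.notMem_empty z))
    (by
      intro p hp x hx hmem
      obtain ⟨hx1, hx2⟩ := (hS x).mp hx
      exact hcap p (hfr p hp) x hx1 (fun h => hx2 (h ▸ hp)) ((hS _).mp hmem).1)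
    (by
      intro p hp x hx hne hmem
      exact hcap p ((hS p).mp hp).1 x ((hS x).mp hx).1 hne ((hS _).mp hmem).1)
    (fun v _ y _ => lookT_zero v y)
  have hlD : ∀ x, x ∈ l ↔ x ∈ cs D1 0 0 := by
    intro x
    rw [hl, hS]
    constructor
    · rintro (⟨h, _⟩ | h)
      · exact h
      · exact hfr x h
    · intro hx
      by_cases h : x ∈ ([0, 1, 3, 9] : List ℕ)
      · exact Or.inr h
      · exact Or.inl ⟨hx, h⟩
  rw [leafT0, force_eq, Bool.or_eq_true, Bool.or_eq_true] at hleaf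
  have hj : ∀ v ∈ cs D1 0 0, (maskOf l).testBit v = true := by
    intro v hv
    rw [testBit_maskOf, hlD]
    exact hv
  rcases hleaf with h | h | h
  · exact step0 cls0 chk_e00 hD1 h hj
  · exact step0 cls1 chk_e01 hD1 h hj
  · exact step0 cls2 chk_e02 hD1 h hj

/-- **Classification.** A 45-cap all of whose sections are of the two types is affinely
equivalent to the standard cap. -/
theorem classify {D : Finset W5} (hD : IsCap D) (h45 : D.card = 45)
    (hT : ∀ ξ : W5, ξ ≠ 0 → Ty (sec D ξ 0) (sec D ξ 1) (sec D ξ 2)) :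
    ∃ g : Aff 5, g.img D = cap45 := by
  obtain ⟨g, hg⟩ := exists_layout hD h45 hT
  have h : Std (g.img D) := Lay.std ⟨g.isCap_img hD, by rw [g.card_img, h45], hg⟩
  exact h.of_img

end Pool.Agent.H29.EGZ
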